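import Pool.Agent.HCF.Y9

/-!
Translations, cones and their closures.
-/

namespace Pool.Agent.HCG

open MvPolynomial Pool.Agent.HCH Pool.Agent.HCF

variable {K : Type} [Field K] {m : ℕ}

/-- The translation: `f` is sent to the polynomial `f (x + v)`. -/
noncomputable def tr (v : Fin m → K) : MvPolynomial (Fin m) K →ₐ[K] MvPolynomial (Fin m) K :=
  aeval fun k => X k + C (v k)

/-- `P` is stable under the translations by the vectors of a space of dimension `r`. For a
homogeneous prime `P` this says that the variety of `P` is a cone whose vertex contains a linear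
space of dimension `r - 1`. -/
def IsCone (r : ℕ) (P : Ideal (MvPolynomial (Fin m) K)) : Prop :=
  ∃ v : Fin r → Fin m → K, LinearIndependent K v ∧
    ∀ c : Fin r → K, ∀ f ∈ P, tr (∑ j, c j • v j) f ∈ P

theorem tr_X (v : Fin m → K) (k : Fin m) : tr v (X k) = X k + C (v k) := by
  unfold tr
  rw [aeval_X]

theorem isCone_of_inj {r : ℕ} {P : Ideal (MvPolynomial (Fin m) K)}
    (L : (Fin r → K) →ₗ[K] (Fin m → K)) (hL : Function.Injective L)
    (h : ∀ c, ∀ f ∈ P, tr (L c) f ∈ P) : IsCone r P := by
  classical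
  refine ⟨fun j => L (Pi.single j 1), ?_, ?_⟩
  · have h1 : LinearIndependent K (fun j : Fin r => (Pi.single j (1 : K) : Fin r → K)) :=
      Pi.linearIndependent_single_one (Fin r) K
    exact h1.map' L (LinearMap.ker_eq_bot.2 hL)
  · intro c f hf
    have h2 : ∑ j, c j • L (Pi.single j (1 : K)) = L c := by
      conv_rhs => rw [← Finset.univ_sum_single c]
      rw [map_sum]
      refine Finset.sum_congr rfl fun j _ => ?_
      rw [← map_smul]
      congr 1
      funext k
      by_cases hk : k = j
      · subst hk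
        simp
      · simp [hk]
    rw [h2]
    exact h c f hf

theorem isCone_mono {r s : ℕ} (hrs : r ≤ s) {P : Ideal (MvPolynomial (Fin m) K)}
    (h : IsCone s P) : IsCone r P := by
  classical
  obtain ⟨v, hv, hP⟩ := h
  refine ⟨fun j => v (Fin.castLE hrs j), hv.comp _ (Fin.castLE_injective hrs), ?_⟩
  intro c f hf
  set c' : Fin s → K := fun k => if hk : (k : ℕ) < r then c ⟨k, hk⟩ else 0 with hc'
  have h1 : ∑ j, c j • v (Fin.castLE hrs j) = ∑ k, c' k • v k := by
    symm
    rw [← Finset.sum_subset (Finset.subset_univ (Finset.univ.image (Fin.castLE hrs)))]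
    · rw [Finset.sum_image (fun a _ b _ hab => Fin.castLE_injective hrs hab)]
      refine Finset.sum_congr rfl fun j _ => ?_
      have : c' (Fin.castLE hrs j) = c j := by
        have hj : ((Fin.castLE hrs j : Fin s) : ℕ) < r := j.2
        simp only [hc']
        rw [dif_pos hj]
        rfl
      rw [this]
    · intro k _ hk
      have hk' : ¬ (k : ℕ) < r := by
        intro h2
        exact hk (Finset.mem_image.2 ⟨⟨k, h2⟩, Finset.mem_univ _, rfl⟩)
      simp only [hc']
      rw [dif_neg hk', zero_smul]
  rw [h1]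
  exact hP c' f hf

/-- The scaling: `f` is sent to the polynomial `f (s x)`. -/
noncomputable def sc (s : K) : MvPolynomial (Fin m) K →ₐ[K] MvPolynomial (Fin m) K :=
  aeval fun k => C s * X k

theorem sc_X (s : K) (k : Fin m) : sc s (X k : MvPolynomial (Fin m) K) = C s * X k := by
  unfold sc
  rw [aeval_X]

theorem sc_homog (s : K) (f : MvPolynomial (Fin m) K) (n : ℕ) (hf : f.IsHomogeneous n) :
    sc s f = C (s ^ n) * f := by
  classical
  unfold sc
  rw [aeval_def, eval₂_eq']
  conv_rhs => rw [f.as_sum, Finset.mul_sum]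
  refine Finset.sum_congr rfl fun d hd => ?_
  have h1 : d.degree = n := by
    have h2 := hf (mem_support_iff.1 hd)
    rw [← h2, Finsupp.degree_eq_weight_one]
    rfl
  rw [monomial_eq]
  simp only [mul_pow, Finset.prod_mul_distrib]
  rw [Finset.prod_pow_eq_pow_sum, ← C_pow]
  have h3 : ∑ i, d i = n := by
    rw [← h1, Finsupp.degree_eq_sum]
  rw [h3, Finsupp.prod_fintype _ _ (fun i => pow_zero _)]
  change C (coeff d f) * _ = _
  ring

theorem sc_tr (s : K) (hs : s ≠ 0) (v : Fin m → K) (f : MvPolynomial (Fin m) K) :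
    sc s (tr v f) = tr (s⁻¹ • v) (sc s f) := by
  have h : (sc s).comp (tr v) = (tr (s⁻¹ • v)).comp (sc s) := by
    apply MvPolynomial.algHom_ext
    intro k
    rw [AlgHom.comp_apply, AlgHom.comp_apply, tr_X, sc_X, map_add, sc_X, map_mul, tr_X]
    have h1 : sc s (C (v k) : MvPolynomial (Fin m) K) = C (v k) := (sc s).commutes (v k)
    have h2 : tr (s⁻¹ • v) (C s : MvPolynomial (Fin m) K) = C s := (tr (s⁻¹ • v)).commutes s
    rw [h1, h2, mul_add, ← C_mul]
    congr 2
    rw [Pi.smul_apply, smul_eq_mul, mul_inv_cancel_left₀ hs]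
  exact congrArg (fun φ : MvPolynomial (Fin m) K →ₐ[K] MvPolynomial (Fin m) K => φ f) h

theorem deh_tr (v : Fin m → K) (f : MvPolynomial (Fin (m + 1)) K) :
    deh (tr (Fin.snoc (α := fun _ => K) v 0) f) = tr v (deh f) := by
  have h : (deh : MvPolynomial (Fin (m + 1)) K →ₐ[K] MvPolynomial (Fin m) K).comp
      (tr (Fin.snoc (α := fun _ => K) v 0)) = (tr v).comp deh := by
    apply MvPolynomial.algHom_ext
    intro k
    rw [AlgHom.comp_apply, AlgHom.comp_apply, tr_X, map_add]
    have h1 : ∀ a : K, (deh : MvPolynomial (Fin (m + 1)) K →ₐ[K] MvPolynomial (Fin m) K) (C a) =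
        C a := fun a => (deh : MvPolynomial (Fin (m + 1)) K →ₐ[K] MvPolynomial (Fin m) K).commutes a
    rw [h1]
    refine Fin.lastCases ?_ (fun j => ?_) k
    · rw [deh_last, Fin.snoc_last, C_0, add_zero, map_one]
    · rw [deh_castSucc, Fin.snoc_castSucc, tr_X]
  exact congrArg (fun φ : MvPolynomial (Fin (m + 1)) K →ₐ[K] MvPolynomial (Fin m) K => φ f) h

/-- A polynomial identity which holds for all nonzero values holds for the coefficients. -/
theorem vand {R : Type} [CommRing R] [Algebra K R] [Infinite K] (p : Ideal R) (hp : p.IsPrime)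
    (u : ℕ → R) (n : ℕ)
    (h : ∀ s : K, s ≠ 0 → ∑ i ∈ Finset.range n, s ^ i • u i ∈ p) :
    ∀ i < n, u i ∈ p := by
  classical
  have hd : IsDomain (R ⧸ p) := Ideal.Quotient.isDomain p
  set q : Polynomial (R ⧸ p) := ∑ i ∈ Finset.range n,
    Polynomial.monomial i (Ideal.Quotient.mk p (u i)) with hq
  have hinj : Function.Injective (algebraMap K (R ⧸ p)) := (algebraMap K (R ⧸ p)).injective
  have hev : ∀ s : K, s ≠ 0 → q.eval (algebraMap K (R ⧸ p) s) = 0 := by
    intro s hs
    rw [hq, Polynomial.eval_finsetSum]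
    have h1 : ∑ i ∈ Finset.range n, (Polynomial.monomial i (Ideal.Quotient.mk p (u i))).eval
        (algebraMap K (R ⧸ p) s) = Ideal.Quotient.mk p (∑ i ∈ Finset.range n, s ^ i • u i) := by
      rw [map_sum]
      refine Finset.sum_congr rfl fun i _ => ?_
      rw [Polynomial.eval_monomial, Algebra.smul_def, map_mul, map_pow, map_pow]
      have h2 : Ideal.Quotient.mk p (algebraMap K R s) = algebraMap K (R ⧸ p) s := rfl
      rw [h2]
      ring
    rw [h1]
    exact Ideal.Quotient.eq_zero_iff_mem.2 (h s hs)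
  have hq0 : q = 0 := by
    apply Polynomial.eq_zero_of_infinite_isRoot
    have h3 : Set.Infinite {s : K | s ≠ 0} := by
      have := Set.Finite.infinite_compl (Set.finite_singleton (0 : K))
      exact this
    exact (h3.image (hinj.injOn)).mono (by
      rintro x ⟨s, hs, rfl⟩
      exact hev s hs)
  intro i hi
  have h4 : q.coeff i = Ideal.Quotient.mk p (u i) := by
    rw [hq, Polynomial.finsetSum_coeff]
    rw [Finset.sum_eq_single i]
    · rw [Polynomial.coeff_monomial, if_pos rfl]
    · intro b _ hb
      rw [Polynomial.coeff_monomial, if_neg hb]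
    · intro hn
      exact absurd (Finset.mem_range.2 hi) hn
  rw [hq0, Polynomial.coeff_zero] at h4
  exact Ideal.Quotient.eq_zero_iff_mem.1 h4.symm

theorem mem_hm_sc [Infinite K] (p : PrimeSpectrum (MvPolynomial (Fin m) K))
    (f : MvPolynomial (Fin (m + 1)) K) :
    f ∈ (hm p).asIdeal ↔ ∀ s : K, s ≠ 0 → deh (sc s f) ∈ p.asIdeal := by
  classical
  have hdec : f = ∑ i ∈ Finset.range (f.totalDegree + 1), homogeneousComponent i f :=
    (sum_homogeneousComponent f).symm
  have hs : ∀ s : K, deh (sc s f) = ∑ i ∈ Finset.range (f.totalDegree + 1),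
      s ^ i • deh (homogeneousComponent i f) := by
    intro s
    conv_lhs => rw [hdec]
    rw [map_sum, map_sum]
    refine Finset.sum_congr rfl fun i _ => ?_
    rw [sc_homog s _ i (homogeneousComponent_isHomogeneous i f), C_mul', map_smul]
  constructor
  · intro hf s _
    rw [hs]
    refine Ideal.sum_mem _ fun i _ => ?_
    have h1 : homogeneousComponent i f ∈ (hm p).asIdeal := hm_homog p f hf i
    have h2 := (mem_hm p _ i (homogeneousComponent_isHomogeneous i f)).1 h1
    rw [Algebra.smul_def]
    exact Ideal.mul_mem_left _ _ h2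
  · intro h
    have h1 := vand p.asIdeal p.isPrime (fun i => deh (homogeneousComponent i f))
      (f.totalDegree + 1) (fun s hs' => by
        have h2 := h s hs'
        rw [hs] at h2
        exact h2)
    rw [hdec]
    refine Ideal.sum_mem _ fun i hi => ?_
    exact (mem_hm p _ i (homogeneousComponent_isHomogeneous i f)).2 (h1 i (Finset.mem_range.1 hi))

/-- The closure of a cone is a cone. -/
theorem isCone_hm [Infinite K] {r : ℕ} (p : PrimeSpectrum (MvPolynomial (Fin m) K))
    (h : IsCone r p.asIdeal) : IsCone r (hm p).asIdeal := by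
  obtain ⟨v, hv, hP⟩ := h
  refine ⟨fun j => Fin.snoc (α := fun _ => K) (v j) 0, ?_, ?_⟩
  · rw [Fintype.linearIndependent_iff] at hv ⊢
    intro g hg
    apply hv g
    funext k
    have h1 := congrFun hg k.castSucc
    simpa [Finset.sum_apply] using h1
  · intro c f hf
    have h1 : ∑ j, c j • (Fin.snoc (α := fun _ => K) (v j) 0 : Fin (m + 1) → K) =
        Fin.snoc (α := fun _ => K) (∑ j, c j • v j) 0 := by
      funext k
      refine Fin.lastCases ?_ (fun i => ?_) k
      · simp [Finset.sum_apply]
      · simp [Finset.sum_apply]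
    rw [h1, mem_hm_sc]
    rw [mem_hm_sc] at hf
    intro s hs
    have h2 : s⁻¹ • (Fin.snoc (α := fun _ => K) (∑ j, c j • v j) 0 : Fin (m + 1) → K) =
        Fin.snoc (α := fun _ => K) (∑ j, (s⁻¹ * c j) • v j) 0 := by
      funext k
      refine Fin.lastCases ?_ (fun i => ?_) k
      · simp
      · simp [Finset.sum_apply, Finset.mul_sum, mul_assoc]
    rw [sc_tr s hs, h2, deh_tr]
    exact hP (fun j => s⁻¹ * c j) _ (hf s hs)

end Pool.Agent.HCG
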