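import Pool.Agent.HCG.G9

/-!
Tangent hyperplanes along the vertex of a cone, and hyperplane sections.
-/

namespace Pool.Agent.HCG

open MvPolynomial Pool.Agent.HCH Pool.Agent.HCF

variable {K : Type} [Field K] {m : ℕ}

theorem tr_C (v : Fin m → K) (a : K) : tr v (C a : MvPolynomial (Fin m) K) = C a :=
  (tr v).commutes a

theorem pderiv_tr (v : Fin m → K) (k : Fin m) (F : MvPolynomial (Fin m) K) :
    pderiv k (tr v F) = tr v (pderiv k F) := by
  classical
  induction F using MvPolynomial.induction_on with
  | C a => rw [tr_C, pderiv_C, map_zero]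
  | add p q hp hq => rw [map_add, map_add, hp, hq, map_add, map_add]
  | mul_X p j hp =>
    have h2 : pderiv k (X j + C (v j) : MvPolynomial (Fin m) K) = pderiv k (X j) := by
      rw [map_add, pderiv_C, add_zero]
    have h3 : tr v (pderiv k (X j : MvPolynomial (Fin m) K)) = pderiv k (X j) := by
      by_cases h : j = k
      · subst h
        rw [pderiv_X_self, map_one]
      · rw [pderiv_X_of_ne h, map_zero]
    rw [map_mul, tr_X, pderiv_mul, hp, pderiv_mul, h2, map_add, map_mul, map_mul, tr_X, h3]

theorem coeff_tr (v : Fin m → K) (F : MvPolynomial (Fin m) K) :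
    coeff 0 (tr v F) = eval v F := by
  have h : (constantCoeff : MvPolynomial (Fin m) K →+* K).comp
      (tr v : MvPolynomial (Fin m) K →+* MvPolynomial (Fin m) K) = eval v := by
    apply MvPolynomial.ringHom_ext
    · intro a
      change constantCoeff (tr v (C a)) = eval v (C a)
      rw [tr_C, constantCoeff_C, eval_C]
    · intro k
      change constantCoeff (tr v (X k)) = eval v (X k)
      rw [tr_X, map_add, constantCoeff_X, constantCoeff_C, eval_X, zero_add]
  exact congrArg (fun φ : MvPolynomial (Fin m) K →+* K => φ F) h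

theorem hc_one (G : MvPolynomial (Fin m) K) :
    homogeneousComponent 1 G = ∑ k, C (coeff 0 (pderiv k G)) * X k := by
  classical
  have h1 := homogeneousComponent_isHomogeneous 1 G
  have h2 := h1.sum_X_mul_pderiv
  rw [one_smul] at h2
  rw [← h2]
  refine Finset.sum_congr rfl fun k _ => ?_
  have h3 : (pderiv k (homogeneousComponent 1 G)).IsHomogeneous 0 := h1.pderiv
  have h4 : pderiv k (homogeneousComponent 1 G) =
      C (coeff 0 (pderiv k (homogeneousComponent 1 G))) := by
    rw [← homogeneousComponent_zero,
      homogeneousComponent_of_mem (m := 0) ((mem_homogeneousSubmodule _ _).2 h3), if_pos rfl]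
  rw [h4, mul_comm]
  congr 2
  rw [coeff_pderiv, coeff_pderiv, coeff_homogeneousComponent, if_pos]
  rw [zero_add]
  simp

/-- The equation of the tangent hyperplane at a point of the vertex vanishes on the cone. -/
theorem tangent_mem (P : Ideal (MvPolynomial (Fin m) K)) (hP : HgI P)
    (F : MvPolynomial (Fin m) K) (v : Fin m → K) (h : tr v F ∈ P) :
    ∑ k, C (eval v (pderiv k F)) * X k ∈ P := by
  have h1 := hP _ h 1
  rw [hc_one] at h1
  have h2 : ∀ k, coeff 0 (pderiv k (tr v F)) = eval v (pderiv k F) := by
    intro k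
    rw [pderiv_tr, coeff_tr]
  simp only [h2] at h1
  exact h1

/-- A linear space of dimension `r` is not contained in the singular locus of dimension `s < r`. -/
theorem exists_smooth_pt [Infinite K] {r s : ℕ} (hsr : s < r) (F : MvPolynomial (Fin m) K)
    (hF : SgLe F s) (v : Fin r → Fin m → K) (hv : LinearIndependent K v) :
    ∃ c : Fin r → K, ∃ k, eval (∑ j, c j • v j) (pderiv k F) ≠ 0 := by
  classical
  by_contra hall
  push Not at hall
  let φ : MvPolynomial (Fin m) K →ₐ[K] MvPolynomial (Fin r) K :=
    aeval fun k => ∑ j, C (v j k) * X j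
  have hφX : ∀ k, φ (X k) = ∑ j, C (v j k) * X j := fun k => aeval_X _ k
  have hφC : ∀ a, φ (C a) = C a := fun a => φ.commutes a
  have hev : ∀ (c : Fin r → K) (f : MvPolynomial (Fin m) K),
      eval c (φ f) = eval (∑ j, c j • v j) f := by
    intro c f
    have h : (eval c).comp (φ : MvPolynomial (Fin m) K →+* MvPolynomial (Fin r) K) =
        eval (∑ j, c j • v j) := by
      apply MvPolynomial.ringHom_ext
      · intro a
        change eval c (φ (C a)) = _
        rw [hφC, eval_C, eval_C]
      · intro k
        change eval c (φ (X k)) = _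
        rw [hφX, map_sum, eval_X, Finset.sum_apply]
        refine Finset.sum_congr rfl fun j _ => ?_
        rw [map_mul, eval_C, eval_X, Pi.smul_apply, smul_eq_mul, mul_comm]
    exact congrArg (fun ψ : MvPolynomial (Fin m) K →+* K => ψ f) h
  have hker : ∀ k, φ (pderiv k F) = 0 := by
    intro k
    apply MvPolynomial.funext
    intro c
    rw [hev, map_zero]
    exact hall c k
  obtain ⟨u, hu⟩ : ∃ u : Fin r → Fin m → K, ∀ j j', ∑ k, u j k * v j' k = if j = j' then 1 else 0 := by
    let T : (Fin r → K) →ₗ[K] (Fin m → K) := Fintype.linearCombination K v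
    have hT : ∀ c, T c = ∑ j, c j • v j := fun c => Fintype.linearCombination_apply K v c
    have hTi : LinearMap.ker T = ⊥ := by
      rw [LinearMap.ker_eq_bot']
      intro c hc
      rw [hT] at hc
      funext j
      exact (Fintype.linearIndependent_iff.1 hv) c hc j
    obtain ⟨g, hg⟩ := LinearMap.exists_leftInverse_of_injective T hTi
    refine ⟨fun j k => g (Pi.single k 1) j, ?_⟩
    intro j j'
    have h1 : T (Pi.single j' 1) = v j' := by
      rw [hT, Finset.sum_eq_single j']
      · rw [Pi.single_eq_same, one_smul]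
      · intro b _ hb
        rw [Pi.single_eq_of_ne hb, zero_smul]
      · intro hn
        exact absurd (Finset.mem_univ _) hn
    have h2 : g (v j') = Pi.single j' 1 := by
      rw [← h1]
      exact congrArg (fun ψ : (Fin r → K) →ₗ[K] (Fin r → K) => ψ (Pi.single j' 1)) hg
    have h3 : g (v j') j = ∑ k, g (Pi.single k 1) j * v j' k := by
      conv_lhs => rw [← Finset.univ_sum_single (v j')]
      rw [map_sum, Finset.sum_apply]
      refine Finset.sum_congr rfl fun k _ => ?_
      have h4 : (Pi.single k (v j' k) : Fin m → K) = v j' k • Pi.single k 1 := by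
        funext i
        by_cases hi : i = k
        · subst hi
          simp
        · simp [hi]
      rw [h4, map_smul, Pi.smul_apply, smul_eq_mul, mul_comm]
    rw [← h3, h2]
    by_cases hj : j = j'
    · subst hj
      simp
    · rw [if_neg hj, Pi.single_eq_of_ne hj]
  have hsurj : Function.Surjective φ := by
    let ψ : MvPolynomial (Fin r) K →ₐ[K] MvPolynomial (Fin m) K :=
      aeval fun j => ∑ k, C (u j k) * X k
    have h1 : φ.comp ψ = AlgHom.id K (MvPolynomial (Fin r) K) := by
      apply MvPolynomial.algHom_ext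
      intro j
      rw [AlgHom.comp_apply, AlgHom.id_apply]
      change φ (aeval _ (X j)) = _
      rw [aeval_X, map_sum]
      have h2 : ∀ k, φ (C (u j k) * X k) = ∑ j', C (u j k * v j' k) * X j' := by
        intro k
        rw [map_mul, hφC, hφX, Finset.mul_sum]
        refine Finset.sum_congr rfl fun j' _ => ?_
        rw [C_mul, mul_assoc]
      rw [Finset.sum_congr rfl fun k _ => h2 k, Finset.sum_comm]
      have h3 : ∀ j', ∑ k, C (u j k * v j' k) * X j' =
          C (if j = j' then 1 else 0) * (X j' : MvPolynomial (Fin r) K) := by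
        intro j'
        rw [← Finset.sum_mul, ← map_sum, hu]
      rw [Finset.sum_congr rfl fun j' _ => h3 j', Finset.sum_eq_single j]
      · rw [if_pos rfl, C_1, one_mul]
      · intro b _ hb
        rw [if_neg (Ne.symm hb), C_0, zero_mul]
      · intro hn
        exact absurd (Finset.mem_univ _) hn
    intro y
    exact ⟨ψ y, congrArg (fun χ : MvPolynomial (Fin r) K →ₐ[K] MvPolynomial (Fin r) K => χ y) h1⟩
  have hφh : ∀ (f : MvPolynomial (Fin m) K) (a : ℕ), f.IsHomogeneous a →
      (φ f).IsHomogeneous a := by
    intro f a hf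
    apply aeval_homog _ _ f a hf
    intro k
    apply IsHomogeneous.sum
    intro j _
    exact isHomogeneous_C_mul_X _ _
  have hbot : (⊥ : Ideal (MvPolynomial (Fin r) K)).IsPrime := Ideal.isPrime_bot
  let Q : PrimeSpectrum (MvPolynomial (Fin m) K) :=
    PrimeSpectrum.comap (φ : MvPolynomial (Fin m) K →+* MvPolynomial (Fin r) K) ⟨⊥, hbot⟩
  have hQ : ∀ f, f ∈ Q.asIdeal ↔ φ f = 0 := fun f => Ideal.mem_bot
  have hQh : HgI Q.asIdeal := by
    intro f hf a
    rw [hQ] at hf ⊢
    have h3 : homogeneousComponent a (φ f) = φ (homogeneousComponent a f) :=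
      comp_homog (φ : MvPolynomial (Fin m) K →+* MvPolynomial (Fin r) K) hφh f a
    rw [← h3, hf, map_zero]
  have hQd : dm K Q.asIdeal = r := (dm_comap φ hsurj ⊥).trans (dm_bot r)
  have h5 := hF Q hQh (fun k => (hQ _).2 (hker k))
  omega

end Pool.Agent.HCG
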