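import Pool.Agent.HCG.G10

/-!
Hyperplane sections by arbitrary linear forms.
-/

namespace Pool.Agent.HCG

open MvPolynomial Pool.Agent.HCH Pool.Agent.HCF

variable {K : Type} [Field K]

theorem lin_lin {m : ℕ} (A B : Matrix (Fin m) (Fin m) K) (h : B * A = 1)
    (F : MvPolynomial (Fin m) K) : lin A (lin B F) = F := by
  rw [lin_mul, h, lin_one]

theorem lin_X {m : ℕ} (A : Matrix (Fin m) (Fin m) K) (a : Fin m) :
    lin A (X a) = ∑ k, C (A a k) * X k := by
  unfold lin
  rw [aeval_X]

theorem lin_C {m : ℕ} (A : Matrix (Fin m) (Fin m) K) (a : K) :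
    lin A (C a) = C a := (lin A).commutes a

/-- The restriction to a hyperplane, up to coordinates. -/
noncomputable def rhoL {n : ℕ} (A : Matrix (Fin (n + 1)) (Fin (n + 1)) K) :
    MvPolynomial (Fin (n + 1)) K →ₐ[K] MvPolynomial (Fin n) K :=
  (rhoI : MvPolynomial (Fin (n + 1)) K →ₐ[K] MvPolynomial (Fin n) K).comp (lin A)

/-- The section of the restriction. -/
noncomputable def tauL {n : ℕ} (B : Matrix (Fin (n + 1)) (Fin (n + 1)) K) :
    MvPolynomial (Fin n) K →ₐ[K] MvPolynomial (Fin (n + 1)) K :=
  (lin B).comp (rename Fin.castSucc)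

theorem lq_lin {n : ℕ} (A B : Matrix (Fin (n + 1)) (Fin (n + 1)) K) (hAB : A * B = 1)
    (hBA : B * A = 1) : LQ (rhoL A) (tauL B) (lin B (X (Fin.last n))) := by
  have h0 := lq_rhoI (K := K) (n := n)
  refine ⟨?_, ?_, ?_, ?_, ?_⟩
  · intro x
    change rhoI (lin A (lin B (rename Fin.castSucc x))) = x
    rw [lin_lin A B hBA]
    exact h0.sec x
  · ext f
    rw [RingHom.mem_ker]
    change rhoI (lin A f) = 0 ↔ _
    have h1 : rhoI (lin A f) = 0 ↔ lin A f ∈ Ideal.span {(X (Fin.last n) :
        MvPolynomial (Fin (n + 1)) K)} := by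
      rw [← h0.ker, RingHom.mem_ker]
      rfl
    rw [h1, Ideal.mem_span_singleton', Ideal.mem_span_singleton']
    constructor
    · rintro ⟨c, hc⟩
      refine ⟨lin B c, ?_⟩
      rw [← map_mul, hc, lin_lin B A hAB]
    · rintro ⟨c, hc⟩
      refine ⟨lin A c, ?_⟩
      rw [← hc, map_mul, lin_lin A B hBA]
  · intro f a hf
    exact h0.hrho _ a (lin_homog A f hf)
  · intro f a hf
    exact lin_homog B _ (h0.htau f a hf)
  · exact lin_homog B _ h0.hl

/-- An invertible matrix with prescribed last row. -/
theorem exists_mat {n : ℕ} (a : Fin (n + 1) → K) (ha : a ≠ 0) :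
    ∃ A B : Matrix (Fin (n + 1)) (Fin (n + 1)) K, A * B = 1 ∧ B * A = 1 ∧
      ∀ k, B (Fin.last n) k = a k := by
  classical
  obtain ⟨k₀, hk₀⟩ : ∃ k, a k ≠ 0 := by
    by_contra h
    push Not at h
    exact ha (funext h)
  let B : Matrix (Fin (n + 1)) (Fin (n + 1)) K := fun i =>
    if i = Fin.last n then a else Pi.single (Equiv.swap k₀ (Fin.last n) i) 1
  have hdet : B.det ≠ 0 := by
    intro h
    obtain ⟨v, hv, hBv⟩ := Matrix.exists_mulVec_eq_zero_iff.2 h
    apply hv
    have h1 : ∀ j, j ≠ k₀ → v j = 0 := by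
      intro j hj
      have h2 := congrFun hBv (Equiv.swap k₀ (Fin.last n) j)
      have h3 : Equiv.swap k₀ (Fin.last n) j ≠ Fin.last n := by
        intro h4
        apply hj
        have h5 := congrArg (Equiv.swap k₀ (Fin.last n)) h4
        rw [Equiv.swap_apply_self, Equiv.swap_apply_right] at h5
        exact h5
      rw [Matrix.mulVec, dotProduct] at h2
      have h4 : B (Equiv.swap k₀ (Fin.last n) j) = Pi.single j 1 := by
        change (if Equiv.swap k₀ (Fin.last n) j = Fin.last n then a else
          Pi.single (Equiv.swap k₀ (Fin.last n) (Equiv.swap k₀ (Fin.last n) j)) 1) = _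
        rw [if_neg h3, Equiv.swap_apply_self]
      rw [h4, Finset.sum_eq_single j] at h2
      · rwa [Pi.single_eq_same, one_mul] at h2
      · intro b _ hb
        rw [Pi.single_eq_of_ne hb, zero_mul]
      · intro hn
        exact absurd (Finset.mem_univ _) hn
    have h2 := congrFun hBv (Fin.last n)
    rw [Matrix.mulVec, dotProduct] at h2
    have h3 : B (Fin.last n) = a := if_pos rfl
    rw [h3, Finset.sum_eq_single k₀] at h2
    · funext j
      by_cases hj : j = k₀
      · subst hj
        exact (mul_eq_zero.1 h2).resolve_left hk₀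
      · exact h1 j hj
    · intro b _ hb
      rw [h1 b hb, mul_zero]
    · intro hn
      exact absurd (Finset.mem_univ _) hn
  have hu : IsUnit B.det := isUnit_iff_ne_zero.2 hdet
  refine ⟨B⁻¹, B, Matrix.nonsing_inv_mul B hu, Matrix.mul_nonsing_inv B hu, fun k => ?_⟩
  have h3 : B (Fin.last n) = a := if_pos rfl
  rw [h3]

theorem sg_lin {m : ℕ} (A B : Matrix (Fin m) (Fin m) K) (hAB : A * B = 1) (hBA : B * A = 1)
    (F : MvPolynomial (Fin m) K) (s : ℕ) (h : SgLe F s) : SgLe (lin A F) s := by
  intro P hP hpd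
  let P1 : PrimeSpectrum (MvPolynomial (Fin m) K) :=
    PrimeSpectrum.comap (lin A : MvPolynomial (Fin m) K →+* MvPolynomial (Fin m) K) P
  have h1 : HgI P1.asIdeal := by
    intro f hf a
    change lin A (homogeneousComponent a f) ∈ P.asIdeal
    have h3 : homogeneousComponent a (lin A f) = lin A (homogeneousComponent a f) :=
      comp_homog (lin A : MvPolynomial (Fin m) K →+* MvPolynomial (Fin m) K)
        (fun f a hf => lin_homog A f hf) f a
    rw [← h3]
    exact hP _ hf a
  have h2 : ∀ b, pderiv b F ∈ P1.asIdeal := by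
    intro b
    change lin A (pderiv b F) ∈ P.asIdeal
    have h3 : lin A (pderiv b F) = ∑ k, pderiv k (lin A F) * C (B k b) := by
      have h4 : ∀ k, pderiv k (lin A F) * C (B k b) =
          ∑ a, lin A (pderiv a F) * C (A a k * B k b) := by
        intro k
        rw [pderiv_lin, Finset.sum_mul]
        refine Finset.sum_congr rfl fun a _ => ?_
        rw [C_mul, mul_assoc]
      rw [Finset.sum_congr rfl fun k _ => h4 k, Finset.sum_comm]
      have h5 : ∀ a, ∑ k, lin A (pderiv a F) * C (A a k * B k b) =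
          lin A (pderiv a F) * C ((A * B) a b) := by
        intro a
        rw [← Finset.mul_sum, ← map_sum, Matrix.mul_apply]
      rw [Finset.sum_congr rfl fun a _ => h5 a, hAB, Finset.sum_eq_single b]
      · rw [Matrix.one_apply_eq, C_1, mul_one]
      · intro a _ ha
        rw [Matrix.one_apply_ne ha, C_0, mul_zero]
      · intro hn
        exact absurd (Finset.mem_univ _) hn
    rw [h3]
    exact Ideal.sum_mem _ fun k _ => Ideal.mul_mem_right _ _ (hpd k)
  have hs : Function.Surjective (lin A) := fun f => ⟨lin B f, lin_lin A B hBA f⟩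
  have h3 : dm K P1.asIdeal = dm K P.asIdeal := dm_comap (lin A) hs P.asIdeal
  have h4 := h P1 h1 h2
  omega

/-- The class of `P` is a rational multiple of the class of an integral linear section. -/
def HartP {m : ℕ} (F : MvPolynomial (Fin m) K) (j : ℕ)
    (P : PrimeSpectrum (MvPolynomial (Fin m) K)) : Prop :=
  ∃ l : ℕ → MvPolynomial (Fin m) K, (∀ k, (l k).IsHomogeneous 1) ∧
    (∀ i ≤ j, (flag F l i).IsPrime ∧ dm K (flag F l i) = m - 1 - i) ∧
    ∃ N : ℕ, 0 < N ∧ ∃ (c : ℤ) (Q : PrimeSpectrum (MvPolynomial (Fin m) K)),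
      Q.asIdeal = flag F l j ∧ (N : ℤ) • cls P - c • cls Q ∈ PRat F (m - 1 - j)

theorem hartP_push {n : ℕ}
    {rho : MvPolynomial (Fin (n + 1)) K →ₐ[K] MvPolynomial (Fin n) K}
    {tau : MvPolynomial (Fin n) K →ₐ[K] MvPolynomial (Fin (n + 1)) K}
    {l : MvPolynomial (Fin (n + 1)) K} (h : LQ rho tau l) (F : MvPolynomial (Fin (n + 1)) K)
    (hFp : (Ideal.span {F}).IsPrime) (hFd : dm K (Ideal.span {F}) = n)
    (j : ℕ) (P' : PrimeSpectrum (MvPolynomial (Fin n) K)) (hH : HartP (rho F) j P') :
    HartP F (j + 1) (PrimeSpectrum.comap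
      (rho : MvPolynomial (Fin (n + 1)) K →+* MvPolynomial (Fin n) K) P') := by
  classical
  obtain ⟨l', hl', hfl, N, hN, c, Q', hQ', hz⟩ := hH
  let ls : ℕ → MvPolynomial (Fin (n + 1)) K := fun k => Nat.casesOn k l (fun k => tau (l' k))
  have hpull : ∀ i, flag F ls (i + 1) = (flag (rho F) l' i).comap
      (rho : MvPolynomial (Fin (n + 1)) K →+* MvPolynomial (Fin n) K) :=
    fun i => flag_pull h F ls l' rfl (fun k => rfl) i
  have e0 : n + 1 - 1 - (j + 1) = n - 1 - j := by omega
  refine ⟨ls, ?_, ?_, N, hN, c, PrimeSpectrum.comap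
      (rho : MvPolynomial (Fin (n + 1)) K →+* MvPolynomial (Fin n) K) Q', ?_, ?_⟩
  · intro k
    cases k with
    | zero => exact h.hl
    | succ k => exact h.htau _ _ (hl' k)
  · intro i hi
    cases i with
    | zero =>
      have h1 : flag F ls 0 = Ideal.span {F} := by
        unfold flag
        congr 1
        simp
      rw [h1]
      exact ⟨hFp, by omega⟩
    | succ i =>
      obtain ⟨h1, h2⟩ := hfl i (by omega)
      rw [hpull]
      refine ⟨Ideal.comap_isPrime _ _, ((dm_comap rho (lq_surj h) _).trans h2).trans ?_⟩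
      omega
  · rw [hpull, ← hQ']
    rfl
  · rw [e0]
    obtain ⟨z, hz1, hz2, hz3⟩ := push_PRat h F (n - 1 - j) _ hz
    convert hz1 using 1
    funext P1
    have hcl : ∀ A : PrimeSpectrum (MvPolynomial (Fin n) K), l ∉ P1.asIdeal →
        cls (PrimeSpectrum.comap
          (rho : MvPolynomial (Fin (n + 1)) K →+* MvPolynomial (Fin n) K) A) P1 = 0 := by
      intro A hl1
      unfold cls
      rw [if_neg]
      rintro rfl
      apply hl1
      change rho l ∈ A.asIdeal
      have : l ∈ RingHom.ker
          (rho : MvPolynomial (Fin (n + 1)) K →+* MvPolynomial (Fin n) K) := by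
        rw [h.ker]
        exact Ideal.mem_span_singleton_self l
      have h0 : rho l = 0 := this
      rw [h0]
      exact A.asIdeal.zero_mem
    by_cases hl1 : l ∈ P1.asIdeal
    · obtain ⟨P1', rfl⟩ := lq_range h P1 hl1
      rw [hz2]
      have hinj : Function.Injective (PrimeSpectrum.comap
          (rho : MvPolynomial (Fin (n + 1)) K →+* MvPolynomial (Fin n) K)) :=
        PrimeSpectrum.comap_injective_of_surjective _ (lq_surj h)
      have hcls : ∀ A, cls (PrimeSpectrum.comap
          (rho : MvPolynomial (Fin (n + 1)) K →+* MvPolynomial (Fin n) K) A)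
          (PrimeSpectrum.comap
          (rho : MvPolynomial (Fin (n + 1)) K →+* MvPolynomial (Fin n) K) P1') =
          cls A P1' := by
        intro A
        unfold cls
        by_cases hA : P1' = A
        · simp [hA]
        · rw [if_neg hA, if_neg]
          intro hc
          exact hA (hinj hc)
      simp only [Pi.sub_apply, Pi.smul_apply, hcls]
    · rw [hz3 P1 hl1]
      simp only [Pi.sub_apply, Pi.smul_apply, hcl _ hl1, smul_zero, sub_zero]

/-- The section of a cone by a hyperplane which contains it. -/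
theorem isCone_section {n r : ℕ} (A B : Matrix (Fin (n + 1)) (Fin (n + 1)) K) (hAB : A * B = 1)
    (hBA : B * A = 1) (P' : PrimeSpectrum (MvPolynomial (Fin n) K))
    (h : IsCone r (PrimeSpectrum.comap
      (rhoL A : MvPolynomial (Fin (n + 1)) K →+* MvPolynomial (Fin n) K) P').asIdeal) :
    IsCone r P'.asIdeal := by
  classical
  have hLQ := lq_lin A B hAB hBA
  obtain ⟨v, hv, hP⟩ := h
  have hmem : ∀ f, f ∈ (PrimeSpectrum.comap
      (rhoL A : MvPolynomial (Fin (n + 1)) K →+* MvPolynomial (Fin n) K) P').asIdeal ↔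
      rhoL A f ∈ P'.asIdeal := fun f => Iff.rfl
  have hlast : ∀ c : Fin r → K, (B.mulVec (∑ j, c j • v j)) (Fin.last n) = 0 := by
    intro c
    have h1 : lin B (X (Fin.last n)) ∈ (PrimeSpectrum.comap
        (rhoL A : MvPolynomial (Fin (n + 1)) K →+* MvPolynomial (Fin n) K) P').asIdeal := by
      rw [hmem]
      have h2 : lin B (X (Fin.last n)) ∈ RingHom.ker
          (rhoL A : MvPolynomial (Fin (n + 1)) K →+* MvPolynomial (Fin n) K) := by
        rw [hLQ.ker]
        exact Ideal.mem_span_singleton_self _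
      have h0 : rhoL A (lin B (X (Fin.last n))) = 0 := h2
      rw [h0]
      exact P'.asIdeal.zero_mem
    have h2 := hP c _ h1
    have h3 : tr (∑ j, c j • v j) (lin B (X (Fin.last n))) = lin B (X (Fin.last n)) +
        C ((B.mulVec (∑ j, c j • v j)) (Fin.last n)) := by
      rw [lin_X, map_sum, Matrix.mulVec, dotProduct, map_sum, ← Finset.sum_add_distrib]
      refine Finset.sum_congr rfl fun k _ => ?_
      rw [map_mul, tr_C, tr_X, mul_add, C_mul]
    rw [h3] at h2
    have h4 := (Ideal.add_mem_iff_right _ h1).1 h2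
    by_contra h5
    apply (PrimeSpectrum.comap
        (rhoL A : MvPolynomial (Fin (n + 1)) K →+* MvPolynomial (Fin n) K) P').isPrime.ne_top
    exact Ideal.eq_top_of_isUnit_mem _ h4 ((IsUnit.mk0 _ h5).map
      (C : K →+* MvPolynomial (Fin (n + 1)) K))
  have hlin : ∀ (c : Fin r → K) (k : Fin (n + 1)), (B.mulVec (∑ j, c j • v j)) k =
      ∑ j, c j * (B.mulVec (v j)) k := by
    intro c k
    simp only [Matrix.mulVec, dotProduct, Finset.sum_apply, Pi.smul_apply, smul_eq_mul,
      Finset.mul_sum]
    rw [Finset.sum_comm]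
    refine Finset.sum_congr rfl fun j _ => Finset.sum_congr rfl fun i _ => ?_
    ring
  refine ⟨fun j k => (B.mulVec (v j)) k.castSucc, ?_, ?_⟩
  · rw [Fintype.linearIndependent_iff] at hv ⊢
    intro c hc
    apply hv c
    have h1 : B.mulVec (∑ j, c j • v j) = 0 := by
      funext k
      refine Fin.lastCases ?_ (fun k => ?_) k
      · exact hlast c
      · rw [hlin]
        have h2 := congrFun hc k
        rw [Finset.sum_apply] at h2
        exact h2
    have h2 : A.mulVec (B.mulVec (∑ j, c j • v j)) = ∑ j, c j • v j := by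
      rw [Matrix.mulVec_mulVec, hAB, Matrix.one_mulVec]
    rw [← h2, h1, Matrix.mulVec_zero]
  · intro c g hg
    set w : Fin n → K := ∑ j, c j • (fun k => (B.mulVec (v j)) k.castSucc : Fin n → K) with hw
    have hwk : ∀ k, w k = (B.mulVec (∑ j, c j • v j)) k.castSucc := by
      intro k
      rw [hlin, hw, Finset.sum_apply]
      rfl
    have h1 : tauL B g ∈ (PrimeSpectrum.comap
        (rhoL A : MvPolynomial (Fin (n + 1)) K →+* MvPolynomial (Fin n) K) P').asIdeal := by
      rw [hmem, hLQ.sec]
      exact hg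
    have h2 := hP c _ h1
    rw [hmem] at h2
    have h3 : ∀ f, rhoL A (tr (∑ j, c j • v j) f) = tr w (rhoL A f) := by
      have h4 : (rhoL A).comp (tr (∑ j, c j • v j)) = (tr w).comp (rhoL A) := by
        apply MvPolynomial.algHom_ext
        intro k
        rw [AlgHom.comp_apply, AlgHom.comp_apply, tr_X, map_add]
        have h5 : rhoL A (C ((∑ j, c j • v j) k)) = C ((∑ j, c j • v j) k) :=
          (rhoL A).commutes _
        have h6 : rhoL A (X k) = ∑ i : Fin n, C (A k i.castSucc) * X i := by
          change rhoI (lin A (X k)) = _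
          rw [lin_X, map_sum, Fin.sum_univ_castSucc]
          have h7 : (rhoI : MvPolynomial (Fin (n + 1)) K →ₐ[K] MvPolynomial (Fin n) K)
              (C (A k (Fin.last n)) * X (Fin.last n)) = 0 := by
            rw [map_mul]
            have : (rhoI : MvPolynomial (Fin (n + 1)) K →ₐ[K] MvPolynomial (Fin n) K)
              (X (Fin.last n)) = 0 := by simp [rhoI]
            rw [this, mul_zero]
          rw [h7, add_zero]
          refine Finset.sum_congr rfl fun i _ => ?_
          rw [map_mul]
          have h8 : (rhoI : MvPolynomial (Fin (n + 1)) K →ₐ[K] MvPolynomial (Fin n) K)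
              (X i.castSucc) = X i := by simp [rhoI]
          have h9 : (rhoI : MvPolynomial (Fin (n + 1)) K →ₐ[K] MvPolynomial (Fin n) K)
              (C (A k i.castSucc)) = C (A k i.castSucc) := rhoI.commutes _
          rw [h8, h9]
        rw [h5, h6, map_sum]
        have h7 : ∀ i : Fin n, tr w (C (A k i.castSucc) * X i) =
            C (A k i.castSucc) * X i + C (A k i.castSucc * w i) := by
          intro i
          rw [map_mul, tr_C, tr_X, mul_add, C_mul]
        rw [Finset.sum_congr rfl fun i _ => h7 i, Finset.sum_add_distrib, ← map_sum]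
        congr 2
        have h8 : A.mulVec (B.mulVec (∑ j, c j • v j)) = ∑ j, c j • v j := by
          rw [Matrix.mulVec_mulVec, hAB, Matrix.one_mulVec]
        have h9 := congrFun h8 k
        rw [← h9, Matrix.mulVec, dotProduct, Fin.sum_univ_castSucc, hlast, mul_zero, add_zero]
        refine Finset.sum_congr rfl fun i _ => ?_
        rw [hwk]
      intro f
      exact congrArg (fun ψ : MvPolynomial (Fin (n + 1)) K →ₐ[K] MvPolynomial (Fin n) K => ψ f) h4
    rw [h3, hLQ.sec] at h2
    exact h2

end Pool.Agent.HCG
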