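import Pool.Agent.HCG.G11

/-!
Cones and Hartshorne's conjecture on the Chow groups of hypersurfaces.
-/

namespace Pool.Agent.HCG

open MvPolynomial Pool.Agent.HCH Pool.Agent.HCF

theorem hartP_of_hart {K : Type} [Field K] {m : ℕ} (F : MvPolynomial (Fin m) K) (c : ℕ)
    (h : Hart F c) (P : PrimeSpectrum (MvPolynomial (Fin m) K)) (hP : HgI P.asIdeal)
    (hF : F ∈ P.asIdeal) (hd : dm K P.asIdeal = m - 1 - c) : HartP F c P := by
  obtain ⟨l, hl, hfl, hz⟩ := h
  exact ⟨l, hl, hfl, hz P hP hF hd⟩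

/-- Cones with a vertex of large dimension are linear sections up to rational equivalence. -/
theorem coneT (d i : ℕ) (hd : 2 ≤ d)
    (HC : ∀ j ≤ i, ∀ n s, 2 * j + s + 1 ≤ n → ∀ F : MvPolynomial (Fin (n + 2)) ℂ,
      F.IsHomogeneous d → SgLe F s → ChowTriv F j) :
    ∀ t c n s r, c ≤ i + t → s + t ≤ r → 2 * c + s + 1 ≤ n →
      ∀ F : MvPolynomial (Fin (n + 2)) ℂ, F.IsHomogeneous d → SgLe F s →
      ∀ P : PrimeSpectrum (MvPolynomial (Fin (n + 2)) ℂ), HgI P.asIdeal → F ∈ P.asIdeal →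
      dm ℂ P.asIdeal = n + 1 - c → IsCone r P.asIdeal → HartP F c P := by
  intro t
  induction t with
  | zero =>
    intro c n s r hc hs hn F hF hsg P hPh hPF hPd _
    exact hartP_of_hart F c (hart_of_ct F c (HC c hc n s hn F hF hsg)) P hPh hPF hPd
  | succ t ih =>
    intro c n s r hc hs hn F hF hsg P hPh hPF hPd hcone
    by_cases hct : c ≤ i + t
    · exact ih c n s r hct (by omega) hn F hF hsg P hPh hPF hPd hcone
    obtain ⟨v, hv, hst⟩ := hcone
    obtain ⟨b, k₀, hk₀⟩ := exists_smooth_pt (by omega : s < r) F hsg v hv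
    obtain ⟨n, rfl⟩ := Nat.exists_eq_add_of_le' (show 1 ≤ n by omega)
    obtain ⟨c, rfl⟩ := Nat.exists_eq_add_of_le' (show 1 ≤ c by omega)
    have htan := tangent_mem P.asIdeal hPh F _ (hst b F hPF)
    obtain ⟨A, B, hAB, hBA, hB⟩ := exists_mat
      (fun k => eval (∑ j, b j • v j) (pderiv k F)) (fun h0 => hk₀ (congrFun h0 k₀))
    have hLQ := lq_lin A B hAB hBA
    have hl : lin B (X (Fin.last (n + 2))) ∈ P.asIdeal := by
      rw [lin_X]
      simp only [hB]
      exact htan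
    obtain ⟨P', rfl⟩ := lq_range hLQ P hl
    obtain ⟨hFp, hFd⟩ := prime_of_sg F hF (by omega) s hsg (by omega)
    refine hartP_push hLQ F hFp hFd c P' ?_
    have hsg' : SgLe (rhoL A F) (s + 1) :=
      sg_rhoI _ (lin_homog A F hF) hd s (sg_lin A B hAB hBA F s hsg)
    refine ih c n (s + 1) r (by omega) (by omega) (by omega) (rhoL A F) (hLQ.hrho F d hF) hsg'
      P' ((lq_homog hLQ P').1 hPh) hPF ?_ (isCone_section A B hAB hBA P' ⟨v, hv, hst⟩)
    have h1 : dm ℂ P'.asIdeal = n + 1 + 1 - (c + 1) := by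
      rw [← hPd]
      exact (dm_comap (rhoL A) (lq_surj hLQ) P'.asIdeal).symm
    omega

theorem mem_HSp {K : Type} [Field K] {n d : ℕ} (F : MvPolynomial (Fin (n + 2)) K)
    (hF : F.IsHomogeneous d) (c : ℕ) (P : SubC F c) (h : HartP F c P.1) :
    scl F c P ∈ HSp F c := by
  classical
  unfold scl
  obtain ⟨l, hl, hfl, N, hN, b, Q, hQ, hz⟩ := h
  obtain ⟨hSp, hSd⟩ := hfl c le_rfl
  have hSd' : dm K (flag F l c) = n + 1 - c := hSd
  let S : Sub F (n + 1 - c) := ⟨⟨flag F l c, hSp⟩, flag_homog F d hF l hl c,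
    Ideal.subset_span (Or.inl rfl), hSd'⟩
  have hQS : Q = S.1 := PrimeSpectrum.ext hQ
  subst hQS
  have hv := int_rat F (n + 1 - c) _ hz
    ((N : ℚ) • Finsupp.single P 1 - (b : ℚ) • Finsupp.single S 1) (by
    intro P1
    have h3 : ∀ (A : Sub F (n + 1 - c)), (Finsupp.single A (1 : ℚ)) P1 =
        ((cls A.1 P1.1 : ℤ) : ℚ) := by
      intro A
      rw [Finsupp.single_apply]
      unfold cls
      by_cases h4 : P1.1 = A.1
      · rw [if_pos (Subtype.ext h4.symm), if_pos h4]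
        simp
      · rw [if_neg (fun h5 => h4 (congrArg Subtype.val h5).symm), if_neg h4]
        simp
    rw [Finsupp.sub_apply, Finsupp.smul_apply, Finsupp.smul_apply, h3, h3, Pi.sub_apply,
      Pi.smul_apply, Pi.smul_apply]
    simp only [smul_eq_mul]
    push_cast
    rfl)
  have h1 : (RatEq F (n + 1 - c)).mkQ
      ((N : ℚ) • Finsupp.single P 1 - (b : ℚ) • Finsupp.single S 1) = 0 :=
    (Submodule.Quotient.mk_eq_zero _).mpr hv
  rw [map_sub, map_smul, map_smul, sub_eq_zero] at h1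
  have hN' : (N : ℚ) ≠ 0 := by exact_mod_cast hN.ne'
  have h2 : (RatEq F (n + 1 - c)).mkQ (Finsupp.single P 1) = (N : ℚ)⁻¹ •
      ((N : ℚ) • (RatEq F (n + 1 - c)).mkQ (Finsupp.single P 1)) := by
    rw [smul_smul, inv_mul_cancel₀ hN', one_smul]
  rw [h2, h1]
  exact Submodule.smul_mem _ _ (Submodule.smul_mem _ _
    (Submodule.subset_span ⟨l, S, hl, hfl, rfl, rfl⟩))

theorem hc_of_rank (d i r₀ k : ℕ) (hd : 2 ≤ d) (hk : 1 ≤ k)
    (hV : ∀ V : MvPolynomial (Fin (2 * (i + r₀) + 1 + 2)) ℂ,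
      V.IsHomogeneous (d * k) → Smooth V → ¬ IndCones V (i + r₀) r₀ (dlt (d * k) r₀)) :
    ∀ j ≤ i, ∀ n s, 2 * j + s + 1 ≤ n → ∀ F : MvPolynomial (Fin (n + 2)) ℂ,
      F.IsHomogeneous d → SgLe F s → ChowTriv F j := by
  intro j hji n s hn F hF hs
  rcases Nat.eq_zero_or_pos j with h0 | hj
  · subst h0
    obtain ⟨hp, hdm⟩ := prime_of_sg F hF (by omega) s hs (by omega)
    exact ct_of_hart F hF 0 (hart_zero F hp hdm)
  have hD : 2 ≤ d * k := by nlinarith
  have hbd : ∀ j r, j ≤ i → j + r = i + r₀ →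
      ∀ V : MvPolynomial (Fin (2 * (j + r) + 1 + 2)) ℂ,
      V.IsHomogeneous (d * k) → Smooth V → ¬ IndCones V (j + r) r (dlt (d * k) r) := by
    intro j r hj hjr
    have hr : r₀ ≤ r := by omega
    rw [hjr]
    intro V h1 h2 h3
    exact hV V h1 h2 (indCones_anti V (i + r₀) hr (dlt_mono (d * k) hD hr) h3)
  have hcrit : ∀ i' ≤ i, ∀ j, 1 ≤ j → j ≤ i' → ∀ F : MvPolynomial (Fin (2 * j + 1 + 2)) ℂ,
      F.IsHomogeneous d → Smooth F → ChowTriv F j := by
    intro i'
    induction i' with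
    | zero => intro _ j h1 h2; omega
    | succ i' ih =>
      intro hi' j hj hji F hF hs
      by_cases hlt : j ≤ i'
      · exact ih (by omega) j hj hlt F hF hs
      · have hji' : j = i' + 1 := by omega
        subst hji'
        by_contra hct
        have hnh : ¬ Hart F (i' + 1) := fun hh => hct (ct_of_hart F hF _ hh)
        obtain ⟨r, hr⟩ := Nat.exists_eq_add_of_le (show i' + 1 ≤ i + r₀ by omega)
        obtain ⟨V, hVh, hVs, hle⟩ := growthc hd hj F hF hs (by
          intro A hA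
          have hsl : SgLe (rhoI (lin A F)) 1 :=
            sg_rhoI _ (lin_homog A F hF) hd 0 (sg_of_smooth _ (smooth_lin A hA F hs))
          rw [Nat.add_sub_cancel]
          by_cases h0 : i' = 0
          · subst h0
            obtain ⟨hp, hdm⟩ := prime_of_sg (rhoI (lin A F)) (rhoI_homog _ (lin_homog A F hF))
              (by omega) 1 hsl (by omega)
            exact hart_zero _ hp hdm
          · apply hart_of_ct
            exact (final d i' hd (fun m (F : MvPolynomial (Fin m) ℂ) => F.IsHomogeneous d)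
              (secClosed_homog d) (fun _ _ h => h)).mp
              (fun j h1 h2 F h3 h4 => ih (by omega) j h1 h2 F h3 h4)
              i' (by omega) le_rfl (2 * (i' + 1)) 1 (by omega) (rhoI (lin A F))
              (rhoI_homog _ (lin_homog A F hF)) hsl) hnh k r hk
        exact hbd (i' + 1) r hi' hr.symm V hVh hVs hle
  exact (final d j hd (fun m (F : MvPolynomial (Fin m) ℂ) => F.IsHomogeneous d)
    (secClosed_homog d) (fun _ _ h => h)).mp (fun j h1 h2 F h3 h4 => hcrit _ hji j h1 h2 F h3 h4)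
    j hj le_rfl n s hn F hF hs

/-- Hartshorne's conjecture and cones. -/
theorem final4 (d i r : ℕ) (hd : 2 ≤ d) : List.TFAE [
    ∀ j ≤ i, ∀ n s, 2 * j + s + 1 ≤ n → ∀ F : MvPolynomial (Fin (n + 2)) ℂ,
      F.IsHomogeneous d → SgLe F s → ChowTriv F j,
    ∀ c n s t, c + s ≤ i + t → 2 * c + s + 1 ≤ n → ∀ F : MvPolynomial (Fin (n + 2)) ℂ,
      F.IsHomogeneous d → SgLe F s → ∀ S ∈ coneSet F c t, scl F c S ∈ HSp F c,
    ∀ V : MvPolynomial (Fin (2 * (i + r) + 1 + 2)) ℂ, V.IsHomogeneous d → Smooth V →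
      ∀ S ∈ coneSet V (i + r) r, scl V (i + r) S ∈ HSp V (i + r),
    ∃ k, 1 ≤ k ∧ ∀ V : MvPolynomial (Fin (2 * (i + r) + 1 + 2)) ℂ, V.IsHomogeneous (d * k) →
      Smooth V → ¬ IndCones V (i + r) r (dlt (d * k) r)] := by
  tfae_have 1 → 2 := by
    intro HC c n s t hct hn F hF hs S hS
    apply mem_HSp F hF
    by_cases hci : c ≤ i
    · exact hartP_of_hart F c (hart_of_ct F c (HC c hci n s hn F hF hs)) S.1 S.2.1 S.2.2.1 S.2.2.2
    · exact coneT d i hd HC (c - i) c n s t (by omega) (by omega) hn F hF hs S.1 S.2.1 S.2.2.1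
        S.2.2.2 hS
  tfae_have 2 → 3 := by
    intro h V hV hs S hS
    exact h (i + r) (2 * (i + r) + 1) 0 r (by omega) (by omega) V hV (sg_of_smooth V hs) S hS
  tfae_have 3 → 4 := by
    intro h
    refine ⟨1, le_rfl, ?_⟩
    intro V hV hs
    rw [mul_one] at hV ⊢
    rintro ⟨S, hS, hc⟩
    have h2 := pow_le_dlt d r hd
    have h3 : 0 < (d - 1) ^ r := Nat.pow_pos (by omega)
    have h4 := hc (Pi.single ⟨0, by omega⟩ 1) (by
      refine Submodule.sum_mem _ fun a _ => Submodule.smul_mem _ _ ?_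
      exact h V hV hs (S a) (hS a))
    have h5 := congrFun h4 ⟨0, by omega⟩
    rw [Pi.single_eq_same] at h5
    exact one_ne_zero h5
  tfae_have 4 → 1 := by
    rintro ⟨k, hk, hV⟩
    exact hc_of_rank d i r k hd hk hV
  tfae_finish

end Pool.Agent.HCG
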