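import Pool.Agent.HCG.G1

/-!
The joins of a prime with linear spaces.
-/

namespace Pool.Agent.HCG

open Pool.Agent.HCH Pool.Agent.HCF

variable {K : Type} [Field K] {m : ℕ}

/-- Two variables are split off: `X 0` becomes the outer and `X 1` the inner variable. -/
noncomputable def eqv (K : Type) [Field K] (m : ℕ) : MvPolynomial (Fin (m + 2)) K ≃ₐ[K]
    Polynomial (Polynomial (MvPolynomial (Fin m) K)) :=
  (MvPolynomial.finSuccEquiv K (m + 1)).trans
    (Polynomial.mapAlgEquiv (MvPolynomial.finSuccEquiv K m))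

theorem eqv_X0 : eqv K m (MvPolynomial.X 0) = Polynomial.X := by
  change Polynomial.map _ (MvPolynomial.finSuccEquiv K (m + 1) (MvPolynomial.X 0)) = _
  rw [MvPolynomial.finSuccEquiv_X_zero, Polynomial.map_X]

theorem eqv_X1 : eqv K m (MvPolynomial.X 1) = Polynomial.C Polynomial.X := by
  have h2 : (1 : Fin (m + 2)) = (0 : Fin (m + 1)).succ := rfl
  change Polynomial.map _ (MvPolynomial.finSuccEquiv K (m + 1) (MvPolynomial.X 1)) = _
  rw [h2, MvPolynomial.finSuccEquiv_X_succ, Polynomial.map_C]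
  congr 1
  exact MvPolynomial.finSuccEquiv_X_zero

theorem eqv_Xs (i : Fin m) : eqv K m (MvPolynomial.X i.succ.succ) =
    Polynomial.C (Polynomial.C (MvPolynomial.X i)) := by
  change Polynomial.map _ (MvPolynomial.finSuccEquiv K (m + 1) (MvPolynomial.X i.succ.succ)) = _
  rw [MvPolynomial.finSuccEquiv_X_succ, Polynomial.map_C]
  congr 1
  exact MvPolynomial.finSuccEquiv_X_succ

theorem eqv_C (a : K) : eqv K m (MvPolynomial.C a) =
    Polynomial.C (Polynomial.C (MvPolynomial.C a)) := (eqv K m).commutes a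

theorem eqv_ren (F : MvPolynomial (Fin m) K) :
    eqv K m (MvPolynomial.rename (Fin.succ ∘ Fin.succ) F) = Polynomial.C (Polynomial.C F) := by
  induction F using MvPolynomial.induction_on with
  | C a =>
    rw [MvPolynomial.rename_C]
    exact eqv_C a
  | add p q hp hq =>
    rw [map_add, map_add, hp, hq, Polynomial.C_add, Polynomial.C_add]
  | mul_X p i hp =>
    rw [map_mul, map_mul, hp, MvPolynomial.rename_X, Polynomial.C_mul, Polynomial.C_mul]
    congr 1
    exact eqv_Xs i

theorem eqv_susp (d : ℕ) (F : MvPolynomial (Fin m) K) : eqv K m (suspA d F) =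
    Polynomial.C (Polynomial.C F) + Polynomial.C Polynomial.X ^ d + Polynomial.X ^ d := by
  unfold suspA
  rw [map_add, map_add, map_pow, map_pow, eqv_X0, eqv_X1, eqv_ren]
  ring

/-- Restriction to the hyperplane `X 1 = ζ X 0`. -/
noncomputable def th (m : ℕ) (ζ : K) : MvPolynomial (Fin (m + 2)) K →ₐ[K]
    Polynomial (MvPolynomial (Fin m) K) :=
  MvPolynomial.aeval (Fin.cons (α := fun _ => Polynomial (MvPolynomial (Fin m) K)) Polynomial.X
    (Fin.cons (α := fun _ => Polynomial (MvPolynomial (Fin m) K))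
      (Polynomial.C (MvPolynomial.C ζ) * Polynomial.X)
      fun i => Polynomial.C (MvPolynomial.X i)))

theorem th_X0 (ζ : K) : th m ζ (MvPolynomial.X 0) = Polynomial.X := by
  unfold th
  rw [MvPolynomial.aeval_X]
  rfl

theorem th_X1 (ζ : K) : th m ζ (MvPolynomial.X 1) =
    Polynomial.C (MvPolynomial.C ζ) * Polynomial.X := by
  unfold th
  rw [MvPolynomial.aeval_X]
  rfl

theorem th_Xs (ζ : K) (i : Fin m) : th m ζ (MvPolynomial.X i.succ.succ) =
    Polynomial.C (MvPolynomial.X i) := by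
  unfold th
  rw [MvPolynomial.aeval_X]
  rfl

theorem th_C (ζ a : K) : th m ζ (MvPolynomial.C a) = Polynomial.C (MvPolynomial.C a) :=
  (th m ζ).commutes a

/-- The prime over `p` in the hyperplane `X 1 = ζ X 0`. -/
noncomputable def J1 (ζ : K) (p : PrimeSpectrum (MvPolynomial (Fin m) K)) :
    PrimeSpectrum (MvPolynomial (Fin (m + 2)) K) :=
  PrimeSpectrum.comap (th m ζ : MvPolynomial (Fin (m + 2)) K →+*
    Polynomial (MvPolynomial (Fin m) K)) (cylP p)

theorem mem_J1 (ζ : K) (p : PrimeSpectrum (MvPolynomial (Fin m) K))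
    (g : MvPolynomial (Fin (m + 2)) K) : g ∈ (J1 ζ p).asIdeal ↔ th m ζ g ∈ (cylP p).asIdeal :=
  Iff.rfl

theorem hh_eqv (ζ : K) (g : MvPolynomial (Fin (m + 2)) K) :
    hh (Polynomial.C (algebraMap K (MvPolynomial (Fin m) K) ζ) * Polynomial.X) Polynomial.X
      (eqv K m g) = th m ζ g := by
  have h : ((hh (Polynomial.C (algebraMap K (MvPolynomial (Fin m) K) ζ) * Polynomial.X)
      Polynomial.X).comp (eqv K m : MvPolynomial (Fin (m + 2)) K →+*
        Polynomial (Polynomial (MvPolynomial (Fin m) K)))) =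
      (th m ζ : MvPolynomial (Fin (m + 2)) K →+* Polynomial (MvPolynomial (Fin m) K)) := by
    apply MvPolynomial.ringHom_ext
    · intro a
      change hh _ _ (eqv K m (MvPolynomial.C a)) = th m ζ (MvPolynomial.C a)
      rw [eqv_C, hh_CC, th_C]
    · intro k
      change hh _ _ (eqv K m (MvPolynomial.X k)) = th m ζ (MvPolynomial.X k)
      refine Fin.cases ?_ (fun k => ?_) k
      · rw [eqv_X0, hh_X, th_X0]
      · refine Fin.cases ?_ (fun k => ?_) k
        · change hh _ _ (eqv K m (MvPolynomial.X 1)) = th m ζ (MvPolynomial.X 1)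
          rw [eqv_X1, hh_CX, th_X1]
          rfl
        · rw [eqv_Xs, hh_CC, th_Xs]
  exact congrArg (fun φ : MvPolynomial (Fin (m + 2)) K →+* Polynomial (MvPolynomial (Fin m) K) =>
    φ g) h

theorem comap_PZ (ζ : K) (p : PrimeSpectrum (MvPolynomial (Fin m) K)) :
    PrimeSpectrum.comap (eqv K m : MvPolynomial (Fin (m + 2)) K →+*
      Polynomial (Polynomial (MvPolynomial (Fin m) K)))
      (PZ (algebraMap K (MvPolynomial (Fin m) K) ζ) p) = J1 ζ p := by
  apply PrimeSpectrum.ext
  ext g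
  change hh _ _ (eqv K m g) ∈ (cylP p).asIdeal ↔ th m ζ g ∈ (cylP p).asIdeal
  rw [hh_eqv]

theorem th_surj (ζ : K) : Function.Surjective (th m ζ) := by
  intro q
  refine ⟨(eqv K m).symm (Polynomial.map Polynomial.C q), ?_⟩
  rw [← hh_eqv, AlgEquiv.apply_symm_apply]
  have h := hh_right_comp (A := MvPolynomial (Fin m) K)
    (Polynomial.C (algebraMap K (MvPolynomial (Fin m) K) ζ) * Polynomial.X)
  exact congrArg (fun φ : Polynomial (MvPolynomial (Fin m) K) →+*
    Polynomial (MvPolynomial (Fin m) K) => φ q) h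

theorem dm_J1 (ζ : K) (p : PrimeSpectrum (MvPolynomial (Fin m) K)) (e : ℕ)
    (hd : dm K p.asIdeal = e) : dm K (J1 ζ p).asIdeal = e + 1 :=
  (dm_comap (th m ζ) (th_surj ζ) (cylP p).asIdeal).trans (dm_cylP e p hd)

/-- The prime over the line lies on the suspension. -/
theorem susp_mem_J1 (d : ℕ) (ζ : K) (hζ : ζ ^ d = -1) (f : MvPolynomial (Fin m) K)
    (p : PrimeSpectrum (MvPolynomial (Fin m) K)) (hf : f ∈ p.asIdeal) :
    suspA d f ∈ (J1 ζ p).asIdeal := by
  rw [mem_J1]
  have h : th m ζ (suspA d f) = Polynomial.C f := by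
    rw [← hh_eqv, eqv_susp, map_add, map_add, map_pow, map_pow, hh_CC, hh_CX, hh_X, mul_pow,
      ← map_pow, ← map_pow, hζ, map_neg, map_neg, map_one, map_one]
    ring
  rw [h]
  exact Ideal.mem_map_of_mem _ hf

/-- The translation of the variable of the polynomial ring and of its coefficients. -/
noncomputable def tau (a : K) (w : Fin m → K) :
    Polynomial (MvPolynomial (Fin m) K) →+* Polynomial (MvPolynomial (Fin m) K) :=
  (Polynomial.compRingHom (Polynomial.X + Polynomial.C (MvPolynomial.C a))).comp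
    (Polynomial.mapRingHom (tr w : MvPolynomial (Fin m) K →+* MvPolynomial (Fin m) K))

theorem tau_C (a : K) (w : Fin m → K) (f : MvPolynomial (Fin m) K) :
    tau a w (Polynomial.C f) = Polynomial.C (tr w f) := by
  change ((Polynomial.C f).map _).comp _ = _
  rw [Polynomial.map_C, Polynomial.C_comp]
  rfl

theorem tau_X (a : K) (w : Fin m → K) :
    tau a w Polynomial.X = Polynomial.X + Polynomial.C (MvPolynomial.C a) := by
  change (Polynomial.X.map _).comp _ = _
  rw [Polynomial.map_X, Polynomial.X_comp]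

theorem th_tr (ζ a : K) (w : Fin m → K) (g : MvPolynomial (Fin (m + 2)) K) :
    th m ζ (tr (Fin.cons (α := fun _ => K) a (Fin.cons (α := fun _ => K) (ζ * a) w)) g) =
      tau a w (th m ζ g) := by
  have h : (th m ζ : MvPolynomial (Fin (m + 2)) K →+* Polynomial (MvPolynomial (Fin m) K)).comp
      (tr (Fin.cons (α := fun _ => K) a (Fin.cons (α := fun _ => K) (ζ * a) w)) :
        MvPolynomial (Fin (m + 2)) K →+* MvPolynomial (Fin (m + 2)) K) =
      (tau a w).comp (th m ζ : MvPolynomial (Fin (m + 2)) K →+*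
        Polynomial (MvPolynomial (Fin m) K)) := by
    apply MvPolynomial.ringHom_ext
    · intro b
      change th m ζ (tr _ (MvPolynomial.C b)) = tau a w (th m ζ (MvPolynomial.C b))
      have h1 : ∀ u : Fin (m + 2) → K, tr u (MvPolynomial.C b) = MvPolynomial.C b :=
        fun u => (tr u).commutes b
      have h2 : tr w (MvPolynomial.C b) = MvPolynomial.C b := (tr w).commutes b
      rw [h1, th_C, tau_C, h2]
    · intro k
      change th m ζ (tr _ (MvPolynomial.X k)) = tau a w (th m ζ (MvPolynomial.X k))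
      rw [tr_X, map_add, th_C]
      refine Fin.cases ?_ (fun k => ?_) k
      · rw [th_X0, tau_X, Fin.cons_zero]
      · rw [Fin.cons_succ]
        refine Fin.cases ?_ (fun k => ?_) k
        · change th m ζ (MvPolynomial.X 1) + _ = tau a w (th m ζ (MvPolynomial.X 1))
          rw [th_X1, map_mul, tau_C, tau_X, Fin.cons_zero]
          have h2 : tr w (MvPolynomial.C ζ) = MvPolynomial.C ζ := (tr w).commutes ζ
          rw [h2, MvPolynomial.C_mul, Polynomial.C_mul]
          ring
        · rw [th_Xs, tau_C, tr_X, Fin.cons_succ, Polynomial.C_add]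
  exact congrArg (fun φ : MvPolynomial (Fin (m + 2)) K →+* Polynomial (MvPolynomial (Fin m) K) =>
    φ g) h

theorem tau_cyl (a : K) (w : Fin m → K) (p : PrimeSpectrum (MvPolynomial (Fin m) K))
    (hp : ∀ f ∈ p.asIdeal, tr w f ∈ p.asIdeal) (q : Polynomial (MvPolynomial (Fin m) K))
    (hq : q ∈ (cylP p).asIdeal) : tau a w q ∈ (cylP p).asIdeal := by
  have h : (cylP p).asIdeal ≤ (cylP p).asIdeal.comap (tau a w) := by
    change p.asIdeal.map Polynomial.C ≤ _
    rw [Ideal.map_le_iff_le_comap]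
    intro f hf
    rw [Ideal.mem_comap, Ideal.mem_comap, tau_C]
    exact Ideal.mem_map_of_mem _ (hp f hf)
  exact h hq

theorem J1_tr (ζ a : K) (w : Fin m → K) (p : PrimeSpectrum (MvPolynomial (Fin m) K))
    (hp : ∀ f ∈ p.asIdeal, tr w f ∈ p.asIdeal) (g : MvPolynomial (Fin (m + 2)) K)
    (hg : g ∈ (J1 ζ p).asIdeal) :
    tr (Fin.cons (α := fun _ => K) a (Fin.cons (α := fun _ => K) (ζ * a) w)) g ∈
      (J1 ζ p).asIdeal := by
  rw [mem_J1] at hg ⊢
  rw [th_tr]
  exact tau_cyl a w p hp _ hg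

/-- The join of `p` with the linear space given by `ζ`. -/
noncomputable def Jr (p : PrimeSpectrum (MvPolynomial (Fin m) K)) :
    ∀ r : ℕ, (Fin r → K) → PrimeSpectrum (MvPolynomial (Fin (m + 2 * r)) K)
  | 0, _ => p
  | r + 1, ζ => J1 (ζ 0) (Jr p r (Fin.tail ζ))

theorem Jr_succ (p : PrimeSpectrum (MvPolynomial (Fin m) K)) (r : ℕ) (ζ : Fin (r + 1) → K) :
    Jr p (r + 1) ζ = J1 (ζ 0) (Jr p r (Fin.tail ζ)) := rfl

theorem dm_Jr (p : PrimeSpectrum (MvPolynomial (Fin m) K)) (e : ℕ) (hd : dm K p.asIdeal = e)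
    (r : ℕ) (ζ : Fin r → K) : dm K (Jr p r ζ).asIdeal = e + r := by
  induction r with
  | zero => exact hd
  | succ r ih => exact dm_J1 _ _ _ (ih _)

theorem susA_mem_Jr (d : ℕ) (f : MvPolynomial (Fin m) K)
    (p : PrimeSpectrum (MvPolynomial (Fin m) K)) (hf : f ∈ p.asIdeal) (r : ℕ) (ζ : Fin r → K)
    (hζ : ∀ j, ζ j ^ d = -1) : susA d f r ∈ (Jr p r ζ).asIdeal := by
  induction r with
  | zero => exact hf
  | succ r ih => exact susp_mem_J1 d _ (hζ 0) _ _ (ih _ (fun j => hζ j.succ))

/-- The vectors of the vertex of the join. -/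
noncomputable def vec (m : ℕ) : ∀ r : ℕ, (Fin r → K) → (Fin r → K) → (Fin (m + 2 * r) → K)
  | 0, _, _ => 0
  | r + 1, ζ, c => Fin.cons (α := fun _ => K) (c 0) (Fin.cons (α := fun _ => K) (ζ 0 * c 0)
      (vec m r (Fin.tail ζ) (Fin.tail c)))

theorem vec_add (r : ℕ) (ζ c c' : Fin r → K) :
    vec m r ζ (c + c') = vec m r ζ c + vec m r ζ c' := by
  induction r with
  | zero =>
    change (0 : Fin m → K) = 0 + 0
    rw [add_zero]
  | succ r ih =>
    funext k
    change Fin (m + 2 * r + 2) at k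
    refine Fin.cases ?_ (fun k => ?_) k
    · rfl
    · refine Fin.cases ?_ (fun k => ?_) k
      · change ζ 0 * (c 0 + c' 0) = ζ 0 * c 0 + ζ 0 * c' 0
        ring
      · exact congrFun (ih (Fin.tail ζ) (Fin.tail c) (Fin.tail c')) k

theorem vec_smul (r : ℕ) (ζ : Fin r → K) (a : K) (c : Fin r → K) :
    vec m r ζ (a • c) = a • vec m r ζ c := by
  induction r with
  | zero =>
    change (0 : Fin m → K) = a • 0
    rw [smul_zero]
  | succ r ih =>
    funext k
    change Fin (m + 2 * r + 2) at k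
    refine Fin.cases ?_ (fun k => ?_) k
    · rfl
    · refine Fin.cases ?_ (fun k => ?_) k
      · change ζ 0 * (a * c 0) = a * (ζ 0 * c 0)
        ring
      · exact congrFun (ih (Fin.tail ζ) (Fin.tail c)) k

theorem vec_inj (r : ℕ) (ζ c : Fin r → K) (h : vec m r ζ c = 0) : c = 0 := by
  induction r with
  | zero => exact Subsingleton.elim _ _
  | succ r ih =>
    have h0 : c 0 = 0 := congrFun h (0 : Fin (m + 2 * r + 2))
    have h1 : Fin.tail c = 0 := by
      apply ih (Fin.tail ζ)
      funext k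
      exact congrFun h (Fin.succ (Fin.succ k) : Fin (m + 2 * r + 2))
    funext j
    refine Fin.cases ?_ (fun j => ?_) j
    · exact h0
    · exact congrFun h1 j

theorem Jr_tr (p : PrimeSpectrum (MvPolynomial (Fin m) K)) (r : ℕ) (ζ c : Fin r → K)
    (g : MvPolynomial (Fin (m + 2 * r)) K) (hg : g ∈ (Jr p r ζ).asIdeal) :
    tr (vec m r ζ c) g ∈ (Jr p r ζ).asIdeal := by
  induction r with
  | zero =>
    have h : tr (vec m 0 ζ c) g = g := by
      change tr (0 : Fin m → K) g = g
      have h1 : tr (0 : Fin m → K) = AlgHom.id K (MvPolynomial (Fin m) K) := by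
        apply MvPolynomial.algHom_ext
        intro k
        rw [tr_X, Pi.zero_apply, MvPolynomial.C_0, add_zero]
        rfl
      rw [h1]
      rfl
    rw [h]
    exact hg
  | succ r ih =>
    exact J1_tr (ζ 0) (c 0) (vec m r (Fin.tail ζ) (Fin.tail c)) (Jr p r (Fin.tail ζ))
      (fun f hf => ih (Fin.tail ζ) (Fin.tail c) f hf) g hg

/-- `vec` as a linear map. -/
noncomputable def vecL (m r : ℕ) (ζ : Fin r → K) : (Fin r → K) →ₗ[K] (Fin (m + 2 * r) → K) where
  toFun := vec m r ζ
  map_add' := vec_add r ζ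
  map_smul' := vec_smul r ζ

theorem vecL_inj (r : ℕ) (ζ : Fin r → K) : Function.Injective (vecL m r ζ) := by
  rw [injective_iff_map_eq_zero]
  exact vec_inj r ζ

theorem isCone_Jr (p : PrimeSpectrum (MvPolynomial (Fin m) K)) (r : ℕ) (ζ : Fin r → K) :
    IsCone r (Jr p r ζ).asIdeal :=
  isCone_of_inj (vecL m r ζ) (vecL_inj r ζ) (fun c f hf => Jr_tr p r ζ c f hf)

end Pool.Agent.HCG
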