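import Pool.Agent.HCG.G2

/-!
The relations between the joins.
-/

namespace Pool.Agent.HCG

open Pool.Agent.HCH Pool.Agent.HCF

theorem Rt_equiv {K R R' : Type} [Field K] [CommRing R] [CommRing R'] [Algebra K R]
    [Algebra K R'] [Algebra.FiniteType K R] [Algebra.FiniteType K R'] (φ : R ≃ₐ[K] R') (f : R)
    (e : ℕ) (z : PrimeSpectrum R' →₀ ℤ) (hz : z ∈ Rt K (Ideal.span {φ f}) e) :
    Finsupp.mapDomain (PrimeSpectrum.comap (φ : R →+* R')) z ∈ Rt K (Ideal.span {f}) e := by
  classical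
  let _ : Algebra R R' := (φ : R →+* R').toAlgebra
  have hst : IsScalarTower K R R' :=
    IsScalarTower.of_algebraMap_eq (fun x => (φ.commutes x).symm)
  have hfin : Module.Finite R R' :=
    Module.Finite.of_surjective (Algebra.linearMap R R') φ.surjective
  have hdeg : ∀ P : PrimeSpectrum R', rdeg R P = 1 := by
    intro P
    refine rdeg_surj (R := R) P (Ideal.Quotient.mk P.asIdeal) (Ideal.mk_ker) ?_
    exact Ideal.Quotient.mk_surjective.comp φ.surjective
  have hp : psh R R' z = Finsupp.mapDomain (PrimeSpectrum.comap (φ : R →+* R')) z := by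
    clear hz
    induction z using Finsupp.induction_linear with
    | zero => simp
    | add a b ha hb => rw [Finsupp.mapDomain_add, map_add, ha, hb]
    | single p n =>
      rw [Finsupp.mapDomain_single, psh_single, hdeg, Finsupp.smul_single, smul_eq_mul,
        mul_one]
      rfl
  have h0 : (Ideal.span {f}).map (algebraMap R R') = Ideal.span {φ f} := by
    rw [Ideal.map_span, Set.image_singleton]
    rfl
  rw [← h0] at hz
  have h1 := psh_Rt (K := K) (R := R) (Ideal.span {f}) e _ hz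
  rw [hp] at h1
  exact h1

theorem Rt_equiv' {K R R' : Type} [Field K] [CommRing R] [CommRing R'] [Algebra K R]
    [Algebra K R'] [Algebra.FiniteType K R] [Algebra.FiniteType K R'] (φ : R ≃ₐ[K] R') (G : R)
    (x : R') (hx : φ G = x) (e : ℕ) (z : PrimeSpectrum R →₀ ℤ)
    (hz : z ∈ Rt K (Ideal.span {G}) e) :
    Finsupp.mapDomain (PrimeSpectrum.comap (φ.symm : R' →+* R)) z ∈
      Rt K (Ideal.span {x}) e := by
  have h : φ.symm x = G := by rw [← hx, AlgEquiv.symm_apply_apply]
  rw [← h] at hz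
  exact Rt_equiv φ.symm x e z hz

theorem Rt_phi {K : Type} [Field K] {m : ℕ} (φ : MvPolynomial (Fin (m + 2)) K ≃ₐ[K]
      Polynomial (Polynomial (MvPolynomial (Fin m) K))) (G : MvPolynomial (Fin (m + 2)) K)
    (x : Polynomial (Polynomial (MvPolynomial (Fin m) K))) (hx : φ G = x) (e : ℕ)
    (z : PrimeSpectrum (MvPolynomial (Fin (m + 2)) K) →₀ ℤ)
    (hz : z ∈ Rt K (Ideal.span {G}) e) :
    Finsupp.mapDomain (PrimeSpectrum.comap (φ.symm :
      Polynomial (Polynomial (MvPolynomial (Fin m) K)) →+* MvPolynomial (Fin (m + 2)) K)) z ∈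
      Rt K (Ideal.span {x}) e := by
  have h1 := @Rt_equiv' K (MvPolynomial (Fin (m + 2)) K)
    (Polynomial (Polynomial (MvPolynomial (Fin m) K))) _ _ _ _ _ _ _ φ G x
  have h2 := h1 hx
  have h3 := h2 e z hz
  exact h3

/-- The iterated sum over the tuples of elements of `S`. -/
def SS {K M : Type} [AddCommMonoid M] (S : Finset K) : ∀ r : ℕ, ((Fin r → K) → M) → M
  | 0, F => F Fin.elim0
  | r + 1, F => ∑ z ∈ S, SS S r (fun ζ => F (Fin.cons z ζ))

/-- The iterated difference. -/
def Dl {K M : Type} [AddCommGroup M] : ∀ r : ℕ, ((Fin r → K) → M) → (Fin r → K) → (Fin r → K) → M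
  | 0, F, _, _ => F Fin.elim0
  | r + 1, F, η, η' => Dl r (fun ζ => F (Fin.cons (η 0) ζ) - F (Fin.cons (η' 0) ζ))
      (Fin.tail η) (Fin.tail η')

theorem SS_succ {K M : Type} [AddCommMonoid M] (S : Finset K) (r : ℕ)
    (F : (Fin (r + 1) → K) → M) :
    SS S (r + 1) F = ∑ z ∈ S, SS S r (fun ζ => F (Fin.cons z ζ)) := rfl

theorem SS_map {K M M' : Type} [AddCommMonoid M] [AddCommMonoid M'] (S : Finset K)
    (L : M →+ M') (r : ℕ) (F : (Fin r → K) → M) : L (SS S r F) = SS S r (fun ζ => L (F ζ)) := by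
  induction r with
  | zero => rfl
  | succ r ih =>
    rw [SS_succ, SS_succ, map_sum]
    exact Finset.sum_congr rfl fun z _ => ih _

theorem SS_sub {K M : Type} [AddCommGroup M] (S : Finset K) (r : ℕ) (F G : (Fin r → K) → M) :
    SS S r (fun ζ => F ζ - G ζ) = SS S r F - SS S r G := by
  induction r with
  | zero => rfl
  | succ r ih =>
    rw [SS_succ, SS_succ, SS_succ, ← Finset.sum_sub_distrib]
    exact Finset.sum_congr rfl fun z _ => ih _ _

theorem SS_congr {K M : Type} [AddCommMonoid M] (S : Finset K) (r : ℕ)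
    (F G : (Fin r → K) → M) (h : ∀ ζ, (∀ j, ζ j ∈ S) → F ζ = G ζ) : SS S r F = SS S r G := by
  induction r with
  | zero => exact h _ (fun j => j.elim0)
  | succ r ih =>
    rw [SS_succ, SS_succ]
    refine Finset.sum_congr rfl fun z hz => ih _ _ fun ζ hζ => h _ fun j => ?_
    refine Fin.cases ?_ (fun j => ?_) j
    · exact hz
    · exact hζ j

theorem SS_induction {K M : Type} [AddCommMonoid M] (S : Finset K) (C : M → Prop) (h0 : C 0)
    (hadd : ∀ x y, C x → C y → C (x + y)) (r : ℕ) (F : (Fin r → K) → M)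
    (h : ∀ ζ, (∀ j, ζ j ∈ S) → C (F ζ)) : C (SS S r F) := by
  classical
  induction r with
  | zero => exact h _ (fun j => j.elim0)
  | succ r ih =>
    rw [SS_succ]
    refine Finset.sum_induction _ C hadd h0 fun z hz => ih _ fun ζ hζ => h _ fun j => ?_
    refine Fin.cases ?_ (fun j => ?_) j
    · exact hz
    · exact hζ j

theorem Dl_map {K M M' : Type} [AddCommGroup M] [AddCommGroup M'] (L : M →+ M') (r : ℕ)
    (F : (Fin r → K) → M) (η η' : Fin r → K) :
    Dl r (fun ζ => L (F ζ)) η η' = L (Dl r F η η') := by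
  induction r with
  | zero => rfl
  | succ r ih =>
    change Dl r (fun ζ => L (F (Fin.cons (η 0) ζ)) - L (F (Fin.cons (η' 0) ζ))) _ _ = _
    simp only [← map_sub]
    exact ih (fun ζ => F (Fin.cons (η 0) ζ) - F (Fin.cons (η' 0) ζ)) _ _

/-- The prime `p` is not torsion modulo rational equivalence. -/
def NT (K : Type) {R : Type} [Field K] [CommRing R] [Algebra K R] (f : R) (e : ℕ)
    (p : PrimeSpectrum R) : Prop :=
  f ∈ p.asIdeal ∧ dm K p.asIdeal = e ∧
    ∀ N : ℕ, 0 < N → (N : ℤ) • Finsupp.single p (1 : ℤ) ∉ Rt K (Ideal.span {f}) e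

theorem NT.eq_zero {K R : Type} [Field K] [CommRing R] [Algebra K R] {f : R} {e : ℕ}
    {p : PrimeSpectrum R} (h : NT K f e p) (c : ℤ)
    (hc : c • Finsupp.single p (1 : ℤ) ∈ Rt K (Ideal.span {f}) e) : c = 0 := by
  by_contra h0
  rcases Int.natAbs_eq c with h1 | h1
  · rw [h1] at hc
    exact h.2.2 _ (Int.natAbs_pos.2 h0) hc
  · rw [h1, neg_smul] at hc
    exact h.2.2 _ (Int.natAbs_pos.2 h0) (by simpa using (Rt K (Ideal.span {f}) e).neg_mem hc)

/-- The splitting of two variables, with its main properties. -/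
theorem exists_phi {K : Type} [Field K] {m : ℕ} (d : ℕ) (F : MvPolynomial (Fin m) K) :
    ∃ φ : MvPolynomial (Fin (m + 2)) K ≃ₐ[K] Polynomial (Polynomial (MvPolynomial (Fin m) K)),
      φ (suspA d F) = Polynomial.C (Polynomial.C F) + Polynomial.C Polynomial.X ^ d +
        Polynomial.X ^ d ∧
      ∀ (ζ : K) (P : PrimeSpectrum (MvPolynomial (Fin m) K)),
        PrimeSpectrum.comap (φ : MvPolynomial (Fin (m + 2)) K →+*
          Polynomial (Polynomial (MvPolynomial (Fin m) K)))
          (PZ (algebraMap K (MvPolynomial (Fin m) K) ζ) P) = J1 ζ P := by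
  refine ⟨eqv K m, eqv_susp d F, fun ζ P => ?_⟩
  exact comap_PZ ζ P

/-- Relations between the joins. -/
theorem rel_Jr {K : Type} [Field K] [IsAlgClosed K] [CharZero K] {m e : ℕ} (he : e + 1 < m)
    (d : ℕ) (hd : 2 ≤ d) (S : Finset K) (hcard : S.card = d)
    (hS : ∀ (A : Type) [CommRing A] [IsDomain A] [Algebra K A],
      ∏ ζ ∈ S, (Polynomial.C Polynomial.X - Polynomial.C (Polynomial.C (algebraMap K A ζ)) *
        Polynomial.X : Polynomial (Polynomial A)) = Polynomial.C Polynomial.X ^ d + Polynomial.X ^ d)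
    (f : MvPolynomial (Fin m) K) (p : PrimeSpectrum (MvPolynomial (Fin m) K)) (h : NT K f e p)
    (r : ℕ) (q : (Fin r → K) → ℤ)
    (hq : SS S r (fun ζ => q ζ • Finsupp.single (Jr p r ζ) (1 : ℤ)) ∈
      Rt K (Ideal.span {susA d f r}) (e + r)) (η η' : Fin r → K) (hη : ∀ j, η j ∈ S)
    (hη' : ∀ j, η' j ∈ S) : Dl r q η η' = 0 := by
  classical
  induction r with
  | zero => exact h.eq_zero _ hq
  | succ r ih =>
    obtain ⟨φ, hφ1, hφ2⟩ := exists_phi (m := m + 2 * r) d (susA d f r)
    set w : K → (PrimeSpectrum (MvPolynomial (Fin (m + 2 * r)) K) →₀ ℤ) := fun z =>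
      SS S r (fun ζ => q (Fin.cons z ζ) • Finsupp.single (Jr p r ζ) (1 : ℤ)) with hw
    have hwd : ∀ ζ P, w ζ P ≠ 0 → dm K P.asIdeal = e + r := by
      intro z
      refine SS_induction S (fun x : PrimeSpectrum (MvPolynomial (Fin (m + 2 * r)) K) →₀ ℤ =>
        ∀ P, x P ≠ 0 → dm K P.asIdeal = e + r) ?_ ?_ r _ ?_
      · intro P hP
        exact absurd rfl hP
      · intro x y hx hy P hP
        by_cases hxP : x P = 0
        · apply hy P
          rwa [Finsupp.add_apply, hxP, zero_add] at hP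
        · exact hx P hxP
      · intro ζ _ P hP
        rw [Finsupp.smul_apply, Finsupp.single_apply] at hP
        split_ifs at hP with h1
        · rw [← h1]
          exact dm_Jr p e h.2.1 r ζ
        · exact absurd (smul_zero _) hP
    have h1 : SS S (r + 1) (fun ζ => q ζ • Finsupp.single (Jr p (r + 1) ζ) (1 : ℤ)) =
        ∑ z ∈ S, Finsupp.mapDomain (J1 z) (w z) := by
      rw [SS_succ]
      refine Finset.sum_congr rfl fun z _ => ?_
      rw [hw]
      have h2 := SS_map S (Finsupp.mapDomain.addMonoidHom (J1 z) :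
        (PrimeSpectrum (MvPolynomial (Fin (m + 2 * r)) K) →₀ ℤ) →+
          (PrimeSpectrum (MvPolynomial (Fin (m + 2 * r + 2)) K) →₀ ℤ)) r
        (fun ζ => q (Fin.cons z ζ) • Finsupp.single (Jr p r ζ) (1 : ℤ))
      refine Eq.trans ?_ h2.symm
      congr 1
      funext ζ
      rw [map_zsmul]
      congr 1
      change _ = Finsupp.mapDomain (J1 z) (Finsupp.single (Jr p r ζ) (1 : ℤ))
      rw [Finsupp.mapDomain_single]
      rfl
    rw [h1] at hq
    have h3 := Rt_phi φ (suspA d (susA d f r)) _ hφ1 (e + r + 1)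
      (∑ z ∈ S, Finsupp.mapDomain (J1 z) (w z)) hq
    have h4 : Finsupp.mapDomain (PrimeSpectrum.comap (φ.symm :
        Polynomial (Polynomial (MvPolynomial (Fin (m + 2 * r)) K)) →+*
          MvPolynomial (Fin (m + 2 * r + 2)) K)) (∑ z ∈ S, Finsupp.mapDomain (J1 z) (w z)) =
        ∑ z ∈ S, Finsupp.mapDomain (PZ (algebraMap K (MvPolynomial (Fin (m + 2 * r)) K) z))
          (w z) := by
      rw [Finsupp.mapDomain_finsetSum]
      refine Finset.sum_congr rfl fun z _ => ?_
      rw [← Finsupp.mapDomain_comp]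
      congr 1
      funext P
      rw [Function.comp_apply, ← hφ2]
      apply PrimeSpectrum.ext
      ext x
      change φ (φ.symm x) ∈ (PZ (algebraMap K (MvPolynomial (Fin (m + 2 * r)) K) z) P).asIdeal ↔
        x ∈ (PZ (algebraMap K (MvPolynomial (Fin (m + 2 * r)) K) z) P).asIdeal
      rw [AlgEquiv.apply_symm_apply]
    rw [h4] at h3
    have h5 := push_sum (susA d f r) d S (hcard ▸ hd) (hS _) (e + r) w hwd h3
    have h6 : ∀ z ∈ S, ∑ ζ ∈ S, w ζ - S.card • w z ∈ JJ K (susA d f r) (e + r) := by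
      intro z hz
      have h7 := h5 z hz
      have h8 : ∑ ζ ∈ S.erase z, w ζ - (S.card - 1) • w z = ∑ ζ ∈ S, w ζ - S.card • w z := by
        rw [← Finset.add_sum_erase S w hz]
        have h9 : S.card = (S.card - 1) + 1 := by omega
        conv_rhs => rw [h9, add_smul, one_smul]
        abel
      rwa [h8] at h7
    have h7 := sub_mem (h6 _ (hη' 0)) (h6 _ (hη 0))
    have h8 : ∑ ζ ∈ S, w ζ - S.card • w (η' 0) - (∑ ζ ∈ S, w ζ - S.card • w (η 0)) =
        S.card • (w (η 0) - w (η' 0)) := by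
      rw [smul_sub]
      abel
    rw [h8] at h7
    obtain ⟨N, hN, h9⟩ := JJ_tors (by omega : e + r + 1 < m + 2 * r) (susA d f r) _ h7
    have hNd : (0 : ℤ) < (N : ℤ) * (S.card : ℤ) := by
      have : 0 < S.card := by omega
      positivity
    have h10 : (N : ℤ) • (S.card • (w (η 0) - w (η' 0))) =
        SS S r (fun ζ => ((N : ℤ) * (S.card : ℤ) * (q (Fin.cons (η 0) ζ) -
          q (Fin.cons (η' 0) ζ))) • Finsupp.single (Jr p r ζ) (1 : ℤ)) := by
      rw [hw, ← natCast_zsmul, smul_smul]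
      simp only
      rw [← SS_sub]
      have h11 := SS_map S (DistribSMul.toAddMonoidHom
        (PrimeSpectrum (MvPolynomial (Fin (m + 2 * r)) K) →₀ ℤ) ((N : ℤ) * (S.card : ℤ))) r
        (fun ζ => q (Fin.cons (η 0) ζ) • Finsupp.single (Jr p r ζ) (1 : ℤ) -
          q (Fin.cons (η' 0) ζ) • Finsupp.single (Jr p r ζ) (1 : ℤ))
      refine Eq.trans h11 ?_
      congr 1
      funext ζ
      rw [DistribSMul.toAddMonoidHom_apply, ← sub_smul, smul_smul]
    rw [h10] at h9
    have h12 := ih (fun ζ => (N : ℤ) * (S.card : ℤ) * (q (Fin.cons (η 0) ζ) -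
      q (Fin.cons (η' 0) ζ))) h9 (Fin.tail η) (Fin.tail η') (fun j => hη j.succ)
      (fun j => hη' j.succ)
    have h13 := Dl_map (AddMonoidHom.mulLeft ((N : ℤ) * (S.card : ℤ))) r
      (fun ζ => q (Fin.cons (η 0) ζ) - q (Fin.cons (η' 0) ζ)) (Fin.tail η) (Fin.tail η')
    have h14 : ((N : ℤ) * (S.card : ℤ)) * Dl (r + 1) q η η' = 0 := by
      rw [← h12]
      exact h13.symm
    rcases mul_eq_zero.1 h14 with h15 | h15
    · exact absurd h15 hNd.ne'
    · exact h15

end Pool.Agent.HCG
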