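import Pool.Agent.HCG.G3

/-!
The scalings and the permutations of the suspension variables.
-/

namespace Pool.Agent.HCG

open MvPolynomial Pool.Agent.HCH Pool.Agent.HCF

variable {K : Type} [Field K] {m : ℕ}

/-- The scaling of the variables. -/
noncomputable def scal {σ : Type} (v : σ → K) : MvPolynomial σ K →ₐ[K] MvPolynomial σ K :=
  aeval fun k => C (v k) * X k

theorem scal_X {σ : Type} (v : σ → K) (k : σ) :
    scal v (X k : MvPolynomial σ K) = C (v k) * X k := by
  unfold scal
  rw [aeval_X]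

theorem scal_C {σ : Type} (v : σ → K) (a : K) :
    scal v (C a : MvPolynomial σ K) = C a := (scal v).commutes a

theorem scal_comp {σ : Type} (v w : σ → K) (h : ∀ k, v k * w k = 1) :
    (scal v).comp (scal w) = AlgHom.id K (MvPolynomial σ K) := by
  apply MvPolynomial.algHom_ext
  intro k
  rw [AlgHom.comp_apply, scal_X, map_mul, scal_C, scal_X, ← mul_assoc, ← C_mul, mul_comm (w k),
    h k, C_1, one_mul]
  rfl

/-- The scaling by nonzero factors as an automorphism. -/
noncomputable def scalE {σ : Type} (v : σ → K) (hv : ∀ k, v k ≠ 0) :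
    MvPolynomial σ K ≃ₐ[K] MvPolynomial σ K :=
  AlgEquiv.ofAlgHom (scal v) (scal fun k => (v k)⁻¹)
    (scal_comp _ _ fun k => mul_inv_cancel₀ (hv k))
    (scal_comp _ _ fun k => inv_mul_cancel₀ (hv k))

theorem scal_rename {σ : Type} (v : σ → K) (π : Equiv.Perm σ) (f : MvPolynomial σ K) :
    scal v (rename π f) = rename π (scal (v ∘ π) f) := by
  have h : (scal v).comp (rename π) = (rename π : MvPolynomial σ K →ₐ[K] MvPolynomial σ K).comp
      (scal (v ∘ π)) := by
    apply MvPolynomial.algHom_ext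
    intro k
    rw [AlgHom.comp_apply, AlgHom.comp_apply, rename_X, scal_X, scal_X, map_mul, rename_X,
      rename_C]
    rfl
  exact congrArg (fun φ : MvPolynomial σ K →ₐ[K] MvPolynomial σ K => φ f) h

theorem tr_rename {n : ℕ} (v : Fin n → K) (π : Equiv.Perm (Fin n))
    (f : MvPolynomial (Fin n) K) : tr v (rename π f) = rename π (tr (v ∘ π) f) := by
  have h : (tr v).comp (rename π) =
      (rename π : MvPolynomial (Fin n) K →ₐ[K] MvPolynomial (Fin n) K).comp (tr (v ∘ π)) := by
    apply MvPolynomial.algHom_ext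
    intro k
    rw [AlgHom.comp_apply, AlgHom.comp_apply, rename_X, tr_X, tr_X, map_add, rename_X, rename_C]
    rfl
  exact congrArg (fun φ : MvPolynomial (Fin n) K →ₐ[K] MvPolynomial (Fin n) K => φ f) h

/-- The prime after a permutation of the variables. -/
noncomputable def ren {n : ℕ} (π : Equiv.Perm (Fin n))
    (P : PrimeSpectrum (MvPolynomial (Fin n) K)) : PrimeSpectrum (MvPolynomial (Fin n) K) :=
  PrimeSpectrum.comap (rename π : MvPolynomial (Fin n) K →ₐ[K] MvPolynomial (Fin n) K).toRingHom P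

theorem mem_ren {n : ℕ} (π : Equiv.Perm (Fin n)) (P : PrimeSpectrum (MvPolynomial (Fin n) K))
    (f : MvPolynomial (Fin n) K) : f ∈ (ren π P).asIdeal ↔ rename π f ∈ P.asIdeal := Iff.rfl

theorem isCone_ren {n r : ℕ} (π : Equiv.Perm (Fin n))
    (P : PrimeSpectrum (MvPolynomial (Fin n) K)) (h : IsCone r P.asIdeal) :
    IsCone r (ren π P).asIdeal := by
  obtain ⟨v, hv, hP⟩ := h
  refine ⟨fun j => v j ∘ π, ?_, ?_⟩
  · have h1 := hv.map' (LinearMap.funLeft K K π)
      (LinearMap.ker_eq_bot.2 (LinearMap.funLeft_injective_of_surjective K K π π.surjective))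
    exact h1
  · intro c f hf
    rw [mem_ren] at hf ⊢
    have h1 := hP c _ hf
    rw [tr_rename] at h1
    have h2 : (∑ j, c j • v j) ∘ π = ∑ j, c j • (v j ∘ π) := by
      funext k
      simp [Finset.sum_apply]
    rwa [h2] at h1

theorem dm_ren {n : ℕ} (π : Equiv.Perm (Fin n)) (P : PrimeSpectrum (MvPolynomial (Fin n) K)) :
    dm K (ren π P).asIdeal = dm K P.asIdeal :=
  dm_comap (rename π : MvPolynomial (Fin n) K →ₐ[K] MvPolynomial (Fin n) K)
    (rename_surjective π π.surjective) P.asIdeal

/-- The positions of the suspension variables. -/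
def psn (m : ℕ) : ∀ r : ℕ, Fin r × Bool → Fin (m + 2 * r)
  | 0, x => x.1.elim0
  | r + 1, x => Fin.cases (motive := fun _ => Fin (m + 2 * r + 2)) (if x.2 then 1 else 0)
      (fun j => (psn m r (j, x.2)).succ.succ) x.1

/-- The positions of the other variables. -/
def xsn (m : ℕ) : ∀ r : ℕ, Fin m → Fin (m + 2 * r)
  | 0, i => i
  | r + 1, i => ((xsn m r i).succ.succ : Fin (m + 2 * r + 2))

/-- The scaling factors. -/
def sgv (m : ℕ) : ∀ r : ℕ, (Fin r × Bool → K) → Fin (m + 2 * r) → K
  | 0, _ => fun _ => 1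
  | r + 1, g => (Fin.cons (α := fun _ => K) (g (0, false)) (Fin.cons (α := fun _ => K)
      (g (0, true)) (sgv m r fun x => g (x.1.succ, x.2))) : Fin (m + 2 * r + 2) → K)

theorem sgv_psn (r : ℕ) (g : Fin r × Bool → K) (x : Fin r × Bool) :
    sgv m r g (psn m r x) = g x := by
  induction r with
  | zero => exact x.1.elim0
  | succ r ih =>
    obtain ⟨j, b⟩ := x
    refine Fin.cases ?_ (fun j => ?_) j
    · cases b
      · rfl
      · rfl
    · exact ih (fun x => g (x.1.succ, x.2)) (j, b)

theorem sgv_xsn (r : ℕ) (g : Fin r × Bool → K) (i : Fin m) :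
    sgv m r g (xsn m r i) = 1 := by
  induction r with
  | zero => rfl
  | succ r ih => exact ih (fun x => g (x.1.succ, x.2))

theorem psn_cover (r : ℕ) (k : Fin (m + 2 * r)) :
    (∃ x, psn m r x = k) ∨ ∃ i, xsn m r i = k := by
  induction r with
  | zero => exact Or.inr ⟨k, rfl⟩
  | succ r ih =>
    change Fin (m + 2 * r + 2) at k
    refine Fin.cases ?_ (fun k => ?_) k
    · exact Or.inl ⟨(0, false), rfl⟩
    · refine Fin.cases ?_ (fun k => ?_) k
      · exact Or.inl ⟨(0, true), rfl⟩
      · rcases ih k with ⟨x, hx⟩ | ⟨i, hi⟩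
        · left
          refine ⟨(x.1.succ, x.2), ?_⟩
          rw [← hx]
          rfl
        · right
          refine ⟨i, ?_⟩
          rw [← hi]
          rfl

theorem psn_val_f (m r : ℕ) : (psn m (r + 1) (0, false)).val = 0 := rfl

theorem psn_val_t (m r : ℕ) : (psn m (r + 1) (0, true)).val = 1 := by
  change ((1 : Fin (m + 2 * r + 2))).val = 1
  exact Fin.val_one (m + 2 * r)

theorem psn_val_s (m r : ℕ) (j : Fin r) (b : Bool) :
    (psn m (r + 1) (j.succ, b)).val = (psn m r (j, b)).val + 2 := rfl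

theorem xsn_val (m r : ℕ) (i : Fin m) : (xsn m (r + 1) i).val = (xsn m r i).val + 2 := rfl

theorem psn_inj (r : ℕ) : Function.Injective (psn m r) := by
  induction r with
  | zero => exact fun x => x.1.elim0
  | succ r ih =>
    rintro ⟨j, b⟩ ⟨j', b'⟩ h
    have h1 := congrArg Fin.val h
    revert h1 h
    refine Fin.cases ?_ (fun j => ?_) j
    · refine Fin.cases ?_ (fun j' => ?_) j'
      · intro _ h1
        cases b <;> cases b'
        · rfl
        · rw [psn_val_f, psn_val_t] at h1
          omega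
        · rw [psn_val_f, psn_val_t] at h1
          omega
        · rfl
      · intro _ h1
        exfalso
        cases b
        · rw [psn_val_f, psn_val_s] at h1
          omega
        · rw [psn_val_t, psn_val_s] at h1
          omega
    · refine Fin.cases ?_ (fun j' => ?_) j'
      · intro _ h1
        exfalso
        cases b'
        · rw [psn_val_f, psn_val_s] at h1
          omega
        · rw [psn_val_t, psn_val_s] at h1
          omega
      · intro h _
        have h1 : psn m r (j, b) = psn m r (j', b') :=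
          Fin.succ_injective _ (Fin.succ_injective _ h)
        have h2 := ih h1
        rw [Prod.mk.injEq] at h2
        rw [h2.1, h2.2]

theorem psn_ne_xsn (r : ℕ) (x : Fin r × Bool) (i : Fin m) : psn m r x ≠ xsn m r i := by
  induction r with
  | zero => exact x.1.elim0
  | succ r ih =>
    obtain ⟨j, b⟩ := x
    refine Fin.cases ?_ (fun j => ?_) j
    · intro h
      have h1 := congrArg Fin.val h
      cases b
      · rw [psn_val_f, xsn_val] at h1
        omega
      · rw [psn_val_t, xsn_val] at h1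
        omega
    · intro h
      have h1 : psn m r (j, b) = xsn m r i :=
        Fin.succ_injective _ (Fin.succ_injective _ h)
      exact ih _ h1

theorem susA_eq (D : ℕ) (f : MvPolynomial (Fin m) K) (r : ℕ) :
    susA D f r = rename (xsn m r) f + ∑ x : Fin r × Bool, X (psn m r x) ^ D := by
  induction r with
  | zero =>
    change f = rename id f + _
    rw [rename_id_apply, Finset.univ_eq_empty, Finset.sum_empty, add_zero]
  | succ r ih =>
    change rename (Fin.succ ∘ Fin.succ) (susA D f r) + X 0 ^ D + X 1 ^ D = _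
    rw [ih, map_add, rename_rename, map_sum, Fintype.sum_prod_type, Fintype.sum_prod_type,
      Fin.sum_univ_succ, Fintype.sum_bool]
    have h1 : ∀ j : Fin r, ∑ b : Bool, rename (Fin.succ ∘ Fin.succ)
        (X (psn m r (j, b)) ^ D : MvPolynomial (Fin (m + 2 * r)) K) =
        ∑ b : Bool, (X (psn m (r + 1) (j.succ, b)) ^ D :
          MvPolynomial (Fin (m + 2 * r + 2)) K) := by
      intro j
      refine Finset.sum_congr rfl fun b _ => ?_
      rw [map_pow, rename_X]
      rfl
    rw [Finset.sum_congr rfl fun j _ => h1 j]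
    have h2 : (X (psn m (r + 1) (0, true)) : MvPolynomial (Fin (m + 2 * r + 2)) K) = X 1 := rfl
    have h3 : (X (psn m (r + 1) (0, false)) : MvPolynomial (Fin (m + 2 * r + 2)) K) = X 0 := rfl
    have h4 : (rename (xsn m (r + 1)) f : MvPolynomial (Fin (m + 2 * r + 2)) K) =
        rename ((Fin.succ ∘ Fin.succ) ∘ xsn m r) f := rfl
    change _ = (rename (xsn m (r + 1)) f : MvPolynomial (Fin (m + 2 * r + 2)) K) +
      ((X (psn m (r + 1) (0, true)) : MvPolynomial (Fin (m + 2 * r + 2)) K) ^ D +
        (X (psn m (r + 1) (0, false)) : MvPolynomial (Fin (m + 2 * r + 2)) K) ^ D + _)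
    rw [h2, h3, h4]
    ring

theorem scal_susA (D : ℕ) (f : MvPolynomial (Fin m) K) (r : ℕ) (g : Fin r × Bool → K)
    (hg : ∀ x, g x ^ D = 1) : scal (sgv m r g) (susA D f r) = susA D f r := by
  rw [susA_eq, map_add, map_sum]
  congr 1
  · have h : (scal (sgv m r g)).comp (rename (xsn m r)) =
        (rename (xsn m r) : MvPolynomial (Fin m) K →ₐ[K] MvPolynomial (Fin (m + 2 * r)) K) := by
      apply MvPolynomial.algHom_ext
      intro k
      rw [AlgHom.comp_apply, rename_X, scal_X, sgv_xsn, C_1, one_mul]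
    exact congrArg (fun φ : MvPolynomial (Fin m) K →ₐ[K] MvPolynomial (Fin (m + 2 * r)) K =>
      φ f) h
  · refine Finset.sum_congr rfl fun x _ => ?_
    rw [map_pow, scal_X, sgv_psn, mul_pow, ← C_pow, hg, C_1, one_mul]

/-- The permutation of the variables given by a permutation of the suspension variables. -/
noncomputable def pim (m r : ℕ) (τ : Equiv.Perm (Fin r × Bool)) :
    Equiv.Perm (Fin (m + 2 * r)) := by
  classical
  exact τ.viaFintypeEmbedding ⟨psn m r, psn_inj r⟩

theorem pim_psn (r : ℕ) (τ : Equiv.Perm (Fin r × Bool)) (x : Fin r × Bool) :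
    pim m r τ (psn m r x) = psn m r (τ x) := by
  classical
  unfold pim
  exact Equiv.Perm.viaFintypeEmbedding_apply_image τ ⟨psn m r, psn_inj r⟩ x

theorem pim_xsn (r : ℕ) (τ : Equiv.Perm (Fin r × Bool)) (i : Fin m) :
    pim m r τ (xsn m r i) = xsn m r i := by
  classical
  unfold pim
  apply Equiv.Perm.viaFintypeEmbedding_apply_notMem_range
  rintro ⟨x, hx⟩
  exact psn_ne_xsn r x i hx

theorem pim_mul (r : ℕ) (τ τ' : Equiv.Perm (Fin r × Bool)) (k : Fin (m + 2 * r)) :
    pim m r τ (pim m r τ' k) = pim m r (τ * τ') k := by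
  rcases psn_cover r k with ⟨x, rfl⟩ | ⟨i, rfl⟩
  · rw [pim_psn, pim_psn, pim_psn]
    rfl
  · rw [pim_xsn, pim_xsn, pim_xsn]

theorem pim_susA (D : ℕ) (f : MvPolynomial (Fin m) K) (r : ℕ)
    (τ : Equiv.Perm (Fin r × Bool)) : rename (pim m r τ) (susA D f r) = susA D f r := by
  rw [susA_eq, map_add, map_sum, rename_rename]
  congr 1
  · congr 2
    funext i
    exact pim_xsn r τ i
  · rw [← Equiv.sum_comp τ (fun x => (X (psn m r x) ^ D : MvPolynomial (Fin (m + 2 * r)) K))]
    refine Finset.sum_congr rfl fun x _ => ?_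
    rw [map_pow, rename_X, pim_psn]

theorem sgv_pim (r : ℕ) (g : Fin r × Bool → K) (τ : Equiv.Perm (Fin r × Bool)) :
    sgv m r g ∘ pim m r τ = sgv m r (g ∘ τ) := by
  funext k
  rw [Function.comp_apply]
  rcases psn_cover r k with ⟨x, rfl⟩ | ⟨i, rfl⟩
  · rw [pim_psn, sgv_psn, sgv_psn]
    rfl
  · rw [pim_xsn, sgv_xsn, sgv_xsn]

theorem sgv_ne (r : ℕ) (g : Fin r × Bool → K) (hg : ∀ x, g x ≠ 0) (k : Fin (m + 2 * r)) :
    sgv m r g k ≠ 0 := by
  rcases psn_cover r k with ⟨x, rfl⟩ | ⟨i, rfl⟩
  · rw [sgv_psn]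
    exact hg x
  · rw [sgv_xsn]
    exact one_ne_zero

end Pool.Agent.HCG
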