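import Pool.Agent.HCG.G4

/-!
The action of the symmetries on the joins.
-/

namespace Pool.Agent.HCG

open MvPolynomial Pool.Agent.HCH Pool.Agent.HCF

variable {K : Type} [Field K] {m : ℕ}

/-- The scaling of the variable of the polynomial ring and of its coefficients. -/
noncomputable def rsc (a : K) (v : Fin m → K) :
    Polynomial (MvPolynomial (Fin m) K) →+* Polynomial (MvPolynomial (Fin m) K) :=
  (Polynomial.compRingHom (Polynomial.C (C a) * Polynomial.X)).comp
    (Polynomial.mapRingHom (scal v : MvPolynomial (Fin m) K →+* MvPolynomial (Fin m) K))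

theorem rsc_C (a : K) (v : Fin m → K) (f : MvPolynomial (Fin m) K) :
    rsc a v (Polynomial.C f) = Polynomial.C (scal v f) := by
  change ((Polynomial.C f).map _).comp _ = _
  rw [Polynomial.map_C, Polynomial.C_comp]
  rfl

theorem rsc_X (a : K) (v : Fin m → K) :
    rsc a v Polynomial.X = Polynomial.C (C a) * Polynomial.X := by
  change (Polynomial.X.map _).comp _ = _
  rw [Polynomial.map_X, Polynomial.X_comp]

theorem rsc_coeff (a : K) (v : Fin m → K) (q : Polynomial (MvPolynomial (Fin m) K)) (n : ℕ) :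
    (rsc a v q).coeff n = scal v (q.coeff n) * C a ^ n := by
  change ((q.map _).comp (Polynomial.C (C a) * Polynomial.X)).coeff n = _
  rw [Polynomial.comp_C_mul_X_coeff, Polynomial.coeff_map]
  rfl

theorem th_scal (ζ a b : K) (ha : a ≠ 0) (v : Fin m → K) (g : MvPolynomial (Fin (m + 2)) K) :
    th m ζ (scal (Fin.cons (α := fun _ => K) a (Fin.cons (α := fun _ => K) b v)) g) =
      rsc a v (th m (ζ * b * a⁻¹) g) := by
  have h : (th m ζ : MvPolynomial (Fin (m + 2)) K →+* Polynomial (MvPolynomial (Fin m) K)).comp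
      (scal (Fin.cons (α := fun _ => K) a (Fin.cons (α := fun _ => K) b v)) :
        MvPolynomial (Fin (m + 2)) K →+* MvPolynomial (Fin (m + 2)) K) =
      (rsc a v).comp (th m (ζ * b * a⁻¹) : MvPolynomial (Fin (m + 2)) K →+*
        Polynomial (MvPolynomial (Fin m) K)) := by
    apply MvPolynomial.ringHom_ext
    · intro c
      change th m ζ (scal _ (C c)) = rsc a v (th m (ζ * b * a⁻¹) (C c))
      rw [scal_C, th_C, th_C, rsc_C, scal_C]
    · intro k
      change th m ζ (scal _ (X k)) = rsc a v (th m (ζ * b * a⁻¹) (X k))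
      rw [scal_X, map_mul, th_C]
      refine Fin.cases ?_ (fun k => ?_) k
      · rw [th_X0, th_X0, rsc_X, Fin.cons_zero]
      · rw [Fin.cons_succ]
        refine Fin.cases ?_ (fun k => ?_) k
        · change _ * th m ζ (X 1) = rsc a v (th m (ζ * b * a⁻¹) (X 1))
          rw [th_X1, th_X1, map_mul, rsc_C, rsc_X, scal_C, Fin.cons_zero, ← mul_assoc,
            ← mul_assoc, ← Polynomial.C_mul, ← Polynomial.C_mul, ← C_mul, ← C_mul]
          congr 3
          rw [inv_mul_cancel_right₀ ha]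
          ring
        · rw [th_Xs, th_Xs, rsc_C, Fin.cons_succ, scal_X, Polynomial.C_mul]
  exact congrArg (fun φ : MvPolynomial (Fin (m + 2)) K →+* Polynomial (MvPolynomial (Fin m) K) =>
    φ g) h

/-- The prime after a scaling of the variables. -/
noncomputable def csc {n : ℕ} (v : Fin n → K)
    (P : PrimeSpectrum (MvPolynomial (Fin n) K)) : PrimeSpectrum (MvPolynomial (Fin n) K) :=
  PrimeSpectrum.comap (scal v).toRingHom P

theorem mem_csc {n : ℕ} (v : Fin n → K) (P : PrimeSpectrum (MvPolynomial (Fin n) K))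
    (f : MvPolynomial (Fin n) K) : f ∈ (csc v P).asIdeal ↔ scal v f ∈ P.asIdeal := Iff.rfl

theorem csc_J1 (ζ a b : K) (ha : a ≠ 0) (v : Fin m → K)
    (P : PrimeSpectrum (MvPolynomial (Fin m) K)) :
    csc (Fin.cons (α := fun _ => K) a (Fin.cons (α := fun _ => K) b v)) (J1 ζ P) =
      J1 (ζ * b * a⁻¹) (csc v P) := by
  apply PrimeSpectrum.ext
  ext g
  rw [mem_csc, mem_J1, mem_J1, th_scal ζ a b ha, mem_cylP, mem_cylP]
  refine forall_congr' fun n => ?_
  rw [rsc_coeff, mem_csc]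
  have hu : IsUnit ((C a : MvPolynomial (Fin m) K) ^ n) :=
    ((IsUnit.mk0 a ha).map (C : K →+* MvPolynomial (Fin m) K)).pow n
  exact Ideal.mul_unit_mem_iff_mem _ hu

theorem csc_one {n : ℕ} (P : PrimeSpectrum (MvPolynomial (Fin n) K)) :
    csc (fun _ => (1 : K)) P = P := by
  have h : scal (fun _ : Fin n => (1 : K)) = AlgHom.id K (MvPolynomial (Fin n) K) := by
    apply MvPolynomial.algHom_ext
    intro k
    rw [scal_X, C_1, one_mul]
    rfl
  apply PrimeSpectrum.ext
  ext g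
  rw [mem_csc, h]
  rfl

theorem csc_Jr (p : PrimeSpectrum (MvPolynomial (Fin m) K)) (r : ℕ) (ζ : Fin r → K)
    (g : Fin r × Bool → K) (hg : ∀ x, g x ≠ 0) :
    csc (sgv m r g) (Jr p r ζ) = Jr p r fun j => ζ j * g (j, true) * (g (j, false))⁻¹ := by
  induction r with
  | zero => exact csc_one p
  | succ r ih =>
    have h1 := ih (Fin.tail ζ) (fun x => g (x.1.succ, x.2)) (fun x => hg _)
    have h2 := csc_J1 (m := m + 2 * r) (ζ 0) (g (0, false)) (g (0, true)) (hg _)
      (sgv m r fun x => g (x.1.succ, x.2)) (Jr p r (Fin.tail ζ))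
    rw [h1] at h2
    exact h2

theorem csc_ren (r : ℕ) (g : Fin r × Bool → K) (τ : Equiv.Perm (Fin r × Bool))
    (P : PrimeSpectrum (MvPolynomial (Fin (m + 2 * r)) K)) :
    csc (sgv m r g) (ren (pim m r τ⁻¹) P) = ren (pim m r τ⁻¹) (csc (sgv m r (g ∘ τ)) P) := by
  apply PrimeSpectrum.ext
  ext h
  rw [mem_csc, mem_ren, mem_ren, mem_csc, scal_rename, sgv_pim]
  have h1 : (g ∘ τ) ∘ (τ⁻¹ : Equiv.Perm (Fin r × Bool)) = g := by
    funext x
    simp
  rw [h1]

theorem ren_ren {n : ℕ} (π π' : Equiv.Perm (Fin n)) (h : ∀ k, π (π' k) = k)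
    (P : PrimeSpectrum (MvPolynomial (Fin n) K)) : ren π' (ren π P) = P := by
  apply PrimeSpectrum.ext
  ext g
  rw [mem_ren, mem_ren, rename_rename]
  have h1 : (π ∘ π') = id := funext h
  rw [h1, rename_id_apply]

theorem ren_inj {n : ℕ} (π : Equiv.Perm (Fin n)) :
    Function.Injective (ren π : PrimeSpectrum (MvPolynomial (Fin n) K) → _) := by
  intro P Q h
  have h1 := congrArg (ren π⁻¹) h
  rwa [ren_ren π π⁻¹ (fun k => by simp), ren_ren π π⁻¹ (fun k => by simp)] at h1

theorem Rt_ren {n : ℕ} (π : Equiv.Perm (Fin n)) (F : MvPolynomial (Fin n) K)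
    (hF : rename π F = F) (e : ℕ) (z : PrimeSpectrum (MvPolynomial (Fin n) K) →₀ ℤ)
    (hz : z ∈ Rt K (Ideal.span {F}) e) :
    Finsupp.mapDomain (ren π) z ∈ Rt K (Ideal.span {F}) e := by
  have h1 : renameEquiv K π F = F := hF
  have h2 := Rt_equiv (renameEquiv K π) F e z
  rw [h1] at h2
  exact h2 hz

theorem Rt_csc {n : ℕ} (v : Fin n → K) (hv : ∀ k, v k ≠ 0) (F : MvPolynomial (Fin n) K)
    (hF : scal v F = F) (e : ℕ) (z : PrimeSpectrum (MvPolynomial (Fin n) K) →₀ ℤ)
    (hz : z ∈ Rt K (Ideal.span {F}) e) :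
    Finsupp.mapDomain (csc v) z ∈ Rt K (Ideal.span {F}) e := by
  have h1 : scalE v hv F = F := hF
  have h2 := Rt_equiv (scalE v hv) F e z
  rw [h1] at h2
  exact h2 hz

theorem csc_bij {n : ℕ} (v : Fin n → K) (hv : ∀ k, v k ≠ 0) :
    Function.Bijective (csc v : PrimeSpectrum (MvPolynomial (Fin n) K) → _) := by
  have h : ∀ (v w : Fin n → K), (∀ k, v k * w k = 1) → ∀ P : PrimeSpectrum
      (MvPolynomial (Fin n) K), csc w (csc v P) = P := by
    intro v w hvw P
    apply PrimeSpectrum.ext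
    ext g
    rw [mem_csc, mem_csc]
    have h1 := congrArg (fun φ : MvPolynomial (Fin n) K →ₐ[K] MvPolynomial (Fin n) K => φ g)
      (scal_comp v w hvw)
    have h2 : scal v (scal w g) = g := h1
    rw [h2]
  have h1 := h v (fun k => (v k)⁻¹) (fun k => mul_inv_cancel₀ (hv k))
  have h2 := h (fun k => (v k)⁻¹) v (fun k => inv_mul_cancel₀ (hv k))
  exact ⟨fun P Q hPQ => by rw [← h1 P, ← h1 Q, hPQ], fun P => ⟨_, h2 P⟩⟩

end Pool.Agent.HCG
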