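import Pool.Agent.HCG.G5

/-!
The eigenvectors of the scalings are not rationally trivial.
-/

namespace Pool.Agent.HCG

open MvPolynomial Pool.Agent.HCH Pool.Agent.HCF

/-- The space of the cycles with coefficients in `K` all of whose rational components are
torsion. -/
def NN (K : Type) {R : Type} [Field K] [CharZero K] [CommRing R] [Algebra K R] (f : R) (e : ℕ) :
    Submodule K (PrimeSpectrum R →₀ K) where
  carrier := {v | ∀ L : K →ₗ[ℚ] ℚ, ∃ M : ℕ, 0 < M ∧ ∃ z ∈ Rt K (Ideal.span {f}) e,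
    ∀ P, (z P : ℚ) = M * L (v P)}
  add_mem' := by
    intro v w hv hw L
    obtain ⟨M1, hM1, z1, hz1, h1⟩ := hv L
    obtain ⟨M2, hM2, z2, hz2, h2⟩ := hw L
    refine ⟨M1 * M2, Nat.mul_pos hM1 hM2, (M2 : ℤ) • z1 + (M1 : ℤ) • z2,
      (Rt K (Ideal.span {f}) e).add_mem ((Rt K (Ideal.span {f}) e).zsmul_mem hz1 _)
        ((Rt K (Ideal.span {f}) e).zsmul_mem hz2 _), ?_⟩
    intro P
    rw [Finsupp.add_apply, Finsupp.smul_apply, Finsupp.smul_apply, Finsupp.add_apply, map_add]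
    simp only [smul_eq_mul]
    push_cast
    rw [h1, h2]
    ring
  zero_mem' := fun L => ⟨1, one_pos, 0, (Rt K (Ideal.span {f}) e).zero_mem, fun P => by simp⟩
  smul_mem' := by
    intro a v hv L
    obtain ⟨M, hM, z, hz, h⟩ := hv (L.comp (LinearMap.mulLeft ℚ a))
    exact ⟨M, hM, z, hz, h⟩

theorem NN_int {K R : Type} [Field K] [CharZero K] [CommRing R] [Algebra K R] (f : R) (e : ℕ)
    (z : PrimeSpectrum R →₀ ℤ) (hz : z ∈ Rt K (Ideal.span {f}) e) (v : PrimeSpectrum R →₀ K)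
    (hv : ∀ P, v P = (z P : K)) : v ∈ NN K f e := by
  intro L
  refine ⟨(L 1).den, (L 1).den_pos, (L 1).num • z, (Rt K (Ideal.span {f}) e).zsmul_mem hz _, ?_⟩
  intro P
  have h1 : L (v P) = (z P : ℚ) * L 1 := by
    rw [hv]
    have h2 : ((z P : ℤ) : K) = (z P) • (1 : K) := by simp
    rw [h2, map_zsmul, zsmul_eq_mul]
  rw [h1, Finsupp.smul_apply, smul_eq_mul]
  push_cast
  have h3 : ((L 1).num : ℚ) = L 1 * (L 1).den := (Rat.mul_den_eq_num (L 1)).symm
  rw [h3]
  ring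

theorem NN_map {K R : Type} [Field K] [CharZero K] [CommRing R] [Algebra K R] (f : R) (e : ℕ)
    (θ : PrimeSpectrum R → PrimeSpectrum R) (hθ : Function.Bijective θ)
    (h : ∀ z ∈ Rt K (Ideal.span {f}) e, Finsupp.mapDomain θ z ∈ Rt K (Ideal.span {f}) e)
    (v : PrimeSpectrum R →₀ K) (hv : v ∈ NN K f e) : Finsupp.mapDomain θ v ∈ NN K f e := by
  intro L
  obtain ⟨M, hM, z, hz, h1⟩ := hv L
  refine ⟨M, hM, Finsupp.mapDomain θ z, h z hz, ?_⟩
  intro P
  obtain ⟨Q, rfl⟩ := hθ.2 P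
  rw [Finsupp.mapDomain_apply hθ.1, Finsupp.mapDomain_apply hθ.1]
  exact h1 Q

theorem SS_shift {K M : Type} [Field K] [AddCommMonoid M] (S : Finset K) (r : ℕ)
    (F : (Fin r → K) → M) (c : Fin r → K) (hc0 : ∀ j, c j ≠ 0)
    (hc : ∀ j, ∀ z ∈ S, z * c j ∈ S) :
    SS S r (fun ζ => F fun j => ζ j * c j) = SS S r F := by
  classical
  induction r with
  | zero =>
    change F _ = F _
    congr 1
    funext j
    exact j.elim0
  | succ r ih =>
    rw [SS_succ, SS_succ]
    have h1 : ∀ z, SS S r (fun ζ => F fun j => (Fin.cons z ζ : Fin (r + 1) → K) j * c j) =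
        SS S r (fun ζ => F (Fin.cons (z * c 0) ζ)) := by
      intro z
      rw [← ih (fun ζ => F (Fin.cons (z * c 0) ζ)) (Fin.tail c) (fun j => hc0 _) (fun j => hc _)]
      congr 1
      funext ζ
      congr 1
      funext j
      refine Fin.cases ?_ (fun j => ?_) j
      · rfl
      · rfl
    rw [Finset.sum_congr rfl fun z _ => h1 z]
    refine Finset.sum_bij (fun z _ => z * c 0) (fun z hz => hc 0 z hz) ?_ ?_ ?_
    · intro a _ b _ hab
      exact mul_right_cancel₀ (hc0 0) hab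
    · intro b hb
      have h2 : Function.Injective (fun z : S => (⟨z.1 * c 0, hc 0 z.1 z.2⟩ : S)) := by
        intro a b hab
        apply Subtype.ext
        exact mul_right_cancel₀ (hc0 0) (congrArg Subtype.val hab)
      obtain ⟨a, ha⟩ := (Finite.injective_iff_surjective.1 h2) ⟨b, hb⟩
      exact ⟨a.1, a.2, congrArg Subtype.val ha⟩
    · intro a _
      rfl

theorem Dl_congr {K M : Type} [AddCommGroup M] (S : Set K) (r : ℕ) (F G : (Fin r → K) → M)
    (h : ∀ ζ, (∀ j, ζ j ∈ S) → F ζ = G ζ) (η η' : Fin r → K) (hη : ∀ j, η j ∈ S)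
    (hη' : ∀ j, η' j ∈ S) : Dl r F η η' = Dl r G η η' := by
  induction r with
  | zero => exact h _ (fun j => j.elim0)
  | succ r ih =>
    refine ih _ _ ?_ (Fin.tail η) (Fin.tail η') (fun j => hη _) (fun j => hη' _)
    intro ζ hζ
    rw [h, h]
    · intro j
      refine Fin.cases ?_ (fun j => ?_) j
      · exact hη' 0
      · exact hζ j
    · intro j
      refine Fin.cases ?_ (fun j => ?_) j
      · exact hη 0
      · exact hζ j

theorem Dl_prod {K : Type} [Field K] (r : ℕ) (a : Fin r → ℕ) (η η' : Fin r → K) :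
    Dl r (fun ζ => ∏ j, ζ j ^ a j) η η' = ∏ j, (η j ^ a j - η' j ^ a j) := by
  induction r with
  | zero =>
    change ∏ j : Fin 0, _ = _
    rw [Fin.prod_univ_zero, Fin.prod_univ_zero]
  | succ r ih =>
    rw [Fin.prod_univ_succ]
    change Dl r (fun ζ => ∏ j : Fin (r + 1), (Fin.cons (η 0) ζ : Fin (r + 1) → K) j ^ a j -
      ∏ j : Fin (r + 1), (Fin.cons (η' 0) ζ : Fin (r + 1) → K) j ^ a j)
      (Fin.tail η) (Fin.tail η') = _
    have h1 : (fun ζ : Fin r → K => ∏ j : Fin (r + 1),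
        (Fin.cons (η 0) ζ : Fin (r + 1) → K) j ^ a j -
        ∏ j : Fin (r + 1), (Fin.cons (η' 0) ζ : Fin (r + 1) → K) j ^ a j) =
        fun ζ => AddMonoidHom.mulLeft (η 0 ^ a 0 - η' 0 ^ a 0)
          (∏ j : Fin r, ζ j ^ a j.succ) := by
      funext ζ
      rw [Fin.prod_univ_succ, Fin.prod_univ_succ, Fin.cons_zero, Fin.cons_zero]
      simp only [Fin.cons_succ]
      rw [← sub_mul]
      rfl
    rw [h1, Dl_map, ih (fun j => a j.succ) (Fin.tail η) (Fin.tail η')]
    rfl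

theorem mem_roots {K : Type} [Field K] [IsAlgClosed K] (D : ℕ) (S : Finset K)
    (hS : ∀ (A : Type) [CommRing A] [IsDomain A] [Algebra K A],
      ∏ ζ ∈ S, (Polynomial.C Polynomial.X - Polynomial.C (Polynomial.C (algebraMap K A ζ)) *
        Polynomial.X : Polynomial (Polynomial A)) = Polynomial.C Polynomial.X ^ D + Polynomial.X ^ D)
    (ζ : K) : ζ ∈ S ↔ ζ ^ D = -1 := by
  have h1 := congrArg (hh (Polynomial.C ζ) (1 : Polynomial K)) (hS K)
  rw [map_prod, map_add, map_pow, map_pow, hh_CX, hh_X, one_pow] at h1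
  have h2 : ∀ z : K, hh (Polynomial.C ζ) (1 : Polynomial K) (Polynomial.C Polynomial.X -
      Polynomial.C (Polynomial.C (algebraMap K K z)) * Polynomial.X) =
      Polynomial.C (ζ - z) := by
    intro z
    rw [map_sub, map_mul, hh_CX, hh_X, hh_CC, mul_one, ← Polynomial.C_sub]
    rfl
  rw [Finset.prod_congr rfl fun z _ => h2 z, ← map_prod] at h1
  have h3 : (Polynomial.C ζ : Polynomial K) ^ D + 1 = Polynomial.C (ζ ^ D + 1) := by
    rw [Polynomial.C_add, Polynomial.C_pow, Polynomial.C_1]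
  rw [h3] at h1
  have h4 := Polynomial.C_injective h1
  constructor
  · intro h
    rw [Finset.prod_eq_zero h (sub_self ζ)] at h4
    exact eq_neg_of_add_eq_zero_left h4.symm
  · intro h
    rw [h, neg_add_cancel] at h4
    obtain ⟨z, hz, h5⟩ := Finset.prod_eq_zero_iff.1 h4
    rwa [sub_eq_zero.1 h5]

theorem exists_den (T : Finset ℚ) : ∃ M : ℕ, 0 < M ∧ ∀ x ∈ T, ((⌊(M : ℚ) * x⌋ : ℤ) : ℚ) = M * x := by
  classical
  induction T using Finset.induction_on with
  | empty => exact ⟨1, one_pos, fun x hx => absurd hx (Finset.notMem_empty x)⟩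
  | insert a T _ ih =>
    obtain ⟨M, hM, h⟩ := ih
    refine ⟨M * a.den, Nat.mul_pos hM a.den_pos, ?_⟩
    have key : ∀ (x : ℚ) (k : ℤ), x = k → ((⌊x⌋ : ℤ) : ℚ) = x := by
      rintro x k rfl
      rw [Int.floor_intCast]
    intro x hx
    rcases Finset.mem_insert.1 hx with rfl | hx
    · apply key _ ((M : ℤ) * x.num)
      push_cast
      have h3 : (x.num : ℚ) = x * x.den := (Rat.mul_den_eq_num x).symm
      rw [h3]
      ring
    · apply key _ (⌊(M : ℚ) * x⌋ * a.den)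
      push_cast
      rw [h x hx]
      ring

/-- Relations between the permuted joins. -/
theorem rel_ren {K : Type} [Field K] [IsAlgClosed K] [CharZero K] {m e : ℕ} (he : e + 1 < m)
    (D : ℕ) (hD : 2 ≤ D) (S : Finset K) (hcard : S.card = D)
    (hS : ∀ (A : Type) [CommRing A] [IsDomain A] [Algebra K A],
      ∏ ζ ∈ S, (Polynomial.C Polynomial.X - Polynomial.C (Polynomial.C (algebraMap K A ζ)) *
        Polynomial.X : Polynomial (Polynomial A)) = Polynomial.C Polynomial.X ^ D + Polynomial.X ^ D)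
    (f : MvPolynomial (Fin m) K) (p : PrimeSpectrum (MvPolynomial (Fin m) K)) (h : NT K f e p)
    (r : ℕ) (τ : Equiv.Perm (Fin r × Bool)) (q : (Fin r → K) → ℤ)
    (hq : SS S r (fun ζ => q ζ • Finsupp.single (ren (pim m r τ⁻¹) (Jr p r ζ)) (1 : ℤ)) ∈
      Rt K (Ideal.span {susA D f r}) (e + r)) (η η' : Fin r → K) (hη : ∀ j, η j ∈ S)
    (hη' : ∀ j, η' j ∈ S) : Dl r q η η' = 0 := by
  classical
  refine rel_Jr he D hD S hcard hS f p h r q ?_ η η' hη hη'
  have h1 := Rt_ren (pim m r τ) (susA D f r) (pim_susA D f r τ) (e + r) _ hq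
  have h2 := SS_map S (Finsupp.mapDomain.addMonoidHom (ren (pim m r τ)) :
    (PrimeSpectrum (MvPolynomial (Fin (m + 2 * r)) K) →₀ ℤ) →+ _) r
    (fun ζ => q ζ • Finsupp.single (ren (pim m r τ⁻¹) (Jr p r ζ)) (1 : ℤ))
  have h3 : (fun ζ : Fin r → K => q ζ • Finsupp.single (Jr p r ζ) (1 : ℤ)) =
      fun ζ => Finsupp.mapDomain.addMonoidHom (ren (pim m r τ))
        (q ζ • Finsupp.single (ren (pim m r τ⁻¹) (Jr p r ζ)) (1 : ℤ)) := by
    funext ζ
    rw [map_zsmul]
    congr 1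
    change _ = Finsupp.mapDomain (ren (pim m r τ)) (Finsupp.single _ (1 : ℤ))
    rw [Finsupp.mapDomain_single, ren_ren]
    intro k
    rw [pim_mul, inv_mul_cancel]
    rcases psn_cover r k with ⟨x, rfl⟩ | ⟨i, rfl⟩
    · rw [pim_psn]
      rfl
    · rw [pim_xsn]
  rw [h3, ← h2]
  exact h1

end Pool.Agent.HCG
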