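import Pool.Agent.HCG.G6

/-!
The eigenvectors.
-/

namespace Pool.Agent.HCG

open MvPolynomial Pool.Agent.HCH Pool.Agent.HCF

variable {K : Type} [Field K] {m : ℕ}

/-- The eigenvector of the scalings. -/
noncomputable def vb (S : Finset K) (p : PrimeSpectrum (MvPolynomial (Fin m) K)) (r : ℕ)
    (τ : Equiv.Perm (Fin r × Bool)) (a : Fin r → ℕ) :
    PrimeSpectrum (MvPolynomial (Fin (m + 2 * r)) K) →₀ K :=
  SS S r fun ζ => (∏ j, ζ j ^ a j) •
    Finsupp.single (ren (pim m r τ⁻¹) (Jr p r ζ)) (1 : K)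

theorem vb_csc (D : ℕ) (S : Finset K) (hS : ∀ z, z ∈ S ↔ z ^ D = -1)
    (p : PrimeSpectrum (MvPolynomial (Fin m) K)) (r : ℕ)
    (τ : Equiv.Perm (Fin r × Bool)) (a : Fin r → ℕ) (g : Fin r × Bool → K)
    (hg0 : ∀ x, g x ≠ 0) (hg : ∀ x, g x ^ D = 1) :
    Finsupp.mapDomain (csc (sgv m r g)) (vb S p r τ a) =
      (∏ j, (g (τ (j, false)) * (g (τ (j, true)))⁻¹) ^ a j) • vb S p r τ a := by
  classical
  set c : Fin r → K := fun j => (g ∘ τ) (j, true) * ((g ∘ τ) (j, false))⁻¹ with hc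
  have hc0 : ∀ j, c j ≠ 0 := fun j => mul_ne_zero (hg0 _) (inv_ne_zero (hg0 _))
  have hcS : ∀ j, ∀ z ∈ S, z * c j ∈ S := by
    intro j z hz
    rw [hS] at hz ⊢
    rw [mul_pow, hz, hc]
    simp only [Function.comp_apply]
    rw [mul_pow, inv_pow, hg, hg, inv_one, mul_one, mul_one]
  have h1 := SS_map S (Finsupp.mapDomain.addMonoidHom (csc (sgv m r g)) :
    (PrimeSpectrum (MvPolynomial (Fin (m + 2 * r)) K) →₀ K) →+ _) r
    (fun ζ => (∏ j, ζ j ^ a j) • Finsupp.single (ren (pim m r τ⁻¹) (Jr p r ζ)) (1 : K))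
  have h2 : (fun ζ : Fin r → K => Finsupp.mapDomain.addMonoidHom (csc (sgv m r g))
      ((∏ j, ζ j ^ a j) • Finsupp.single (ren (pim m r τ⁻¹) (Jr p r ζ)) (1 : K))) =
      fun ζ => (fun ξ : Fin r → K => (∏ j, (ξ j * (c j)⁻¹) ^ a j) •
        Finsupp.single (ren (pim m r τ⁻¹) (Jr p r ξ)) (1 : K)) (fun j => ζ j * c j) := by
    funext ζ
    change Finsupp.mapDomain (csc (sgv m r g))
      ((∏ j, ζ j ^ a j) • Finsupp.single (ren (pim m r τ⁻¹) (Jr p r ζ)) (1 : K)) = _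
    rw [Finsupp.mapDomain_smul, Finsupp.mapDomain_single, csc_ren,
      csc_Jr p r ζ (g ∘ τ) (fun x => hg0 _)]
    beta_reduce
    congr 1
    · refine Finset.prod_congr rfl fun j _ => ?_
      rw [mul_inv_cancel_right₀ (hc0 j)]
    · congr 2
      congr 1
      funext j
      rw [hc]
      ring
  have hsh := SS_shift S r (fun ξ : Fin r → K => (∏ j, (ξ j * (c j)⁻¹) ^ a j) •
    Finsupp.single (ren (pim m r τ⁻¹) (Jr p r ξ)) (1 : K)) c hc0 hcS
  rw [h2] at h1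
  have h3 := SS_map S (DistribSMul.toAddMonoidHom
    (PrimeSpectrum (MvPolynomial (Fin (m + 2 * r)) K) →₀ K)
    (∏ j, (g (τ (j, false)) * (g (τ (j, true)))⁻¹) ^ a j)) r
    (fun ζ => (∏ j, ζ j ^ a j) • Finsupp.single (ren (pim m r τ⁻¹) (Jr p r ζ)) (1 : K))
  refine Eq.trans h1 (Eq.trans hsh (Eq.trans ?_ h3.symm))
  congr 1
  funext ζ
  rw [DistribSMul.toAddMonoidHom_apply, smul_smul, ← Finset.prod_mul_distrib]
  congr 1
  refine Finset.prod_congr rfl fun j _ => ?_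
  rw [← mul_pow]
  congr 1
  rw [hc]
  simp only [Function.comp_apply]
  rw [mul_inv, inv_inv]
  ring

theorem vb_notMem {K : Type} [Field K] [IsAlgClosed K] [CharZero K] {m e : ℕ} (he : e + 1 < m)
    (D : ℕ) (hD : 2 ≤ D) (S : Finset K) (hcard : S.card = D)
    (hS : ∀ (A : Type) [CommRing A] [IsDomain A] [Algebra K A],
      ∏ ζ ∈ S, (Polynomial.C Polynomial.X - Polynomial.C (Polynomial.C (algebraMap K A ζ)) *
        Polynomial.X : Polynomial (Polynomial A)) = Polynomial.C Polynomial.X ^ D + Polynomial.X ^ D)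
    (f : MvPolynomial (Fin m) K) (p : PrimeSpectrum (MvPolynomial (Fin m) K)) (h : NT K f e p)
    (r : ℕ) (τ : Equiv.Perm (Fin r × Bool)) (a : Fin r → ℕ) (η η' : Fin r → K)
    (hη : ∀ j, η j ∈ S) (hη' : ∀ j, η' j ∈ S) (hne : ∀ j, η j ^ a j ≠ η' j ^ a j) :
    vb S p r τ a ∉ NN K (susA D f r) (e + r) := by
  classical
  intro hmem
  have hprod : ∏ j, (η j ^ a j - η' j ^ a j) ≠ 0 :=
    Finset.prod_ne_zero_iff.2 fun j _ => sub_ne_zero.2 (hne j)
  apply hprod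
  rw [← Module.forall_dual_apply_eq_zero_iff ℚ]
  intro L
  obtain ⟨M, hM, z, hz, hzP⟩ := hmem L
  obtain ⟨M2, hM2, hfl⟩ := exists_den ((Fintype.piFinset (fun _ : Fin r => S)).image
    (fun ζ => L (∏ j, ζ j ^ a j)))
  set q : (Fin r → K) → ℤ := fun ζ => ⌊(M2 : ℚ) * L (∏ j, ζ j ^ a j)⌋ with hq
  have hqS : ∀ ζ : Fin r → K, (∀ j, ζ j ∈ S) → ((q ζ : ℤ) : ℚ) = M2 * L (∏ j, ζ j ^ a j) := by
    intro ζ hζ
    apply hfl
    exact Finset.mem_image_of_mem _ (Fintype.mem_piFinset.2 hζ)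
  set R : (Fin r → K) → PrimeSpectrum (MvPolynomial (Fin (m + 2 * r)) K) := fun ζ =>
    ren (pim m r τ⁻¹) (Jr p r ζ) with hR
  have hcl : SS S r (fun ζ => ((M : ℤ) * q ζ) • Finsupp.single (R ζ) (1 : ℤ)) = (M2 : ℤ) • z := by
    ext P
    have h0 : (((SS S r (fun ζ => ((M : ℤ) * q ζ) • Finsupp.single (R ζ) (1 : ℤ))) P : ℤ) : ℚ) =
        ((((M2 : ℤ) • z) P : ℤ) : ℚ) := by
      have h1 := SS_map S ((Int.castAddHom ℚ).comp (Finsupp.applyAddHom P)) r
        (fun ζ => ((M : ℤ) * q ζ) • Finsupp.single (R ζ) (1 : ℤ))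
      have h2 := SS_map S (L.toAddMonoidHom.comp (Finsupp.applyAddHom P)) r
        (fun ζ => (∏ j, ζ j ^ a j) • Finsupp.single (R ζ) (1 : K))
      have h3 := SS_map S (AddMonoidHom.mulLeft ((M2 : ℚ) * M)) r
        (fun ζ => (L.toAddMonoidHom.comp (Finsupp.applyAddHom P))
          ((∏ j, ζ j ^ a j) • Finsupp.single (R ζ) (1 : K)))
      have h4 : ((((M2 : ℤ) • z) P : ℤ) : ℚ) = (M2 : ℚ) * M * L (vb S p r τ a P) := by
        rw [Finsupp.smul_apply, smul_eq_mul]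
        push_cast
        rw [hzP]
        ring
      have h5 : L (vb S p r τ a P) = SS S r (fun ζ =>
          (L.toAddMonoidHom.comp (Finsupp.applyAddHom P))
            ((∏ j, ζ j ^ a j) • Finsupp.single (R ζ) (1 : K))) := h2
      rw [h4, h5]
      refine Eq.trans h1 (Eq.trans ?_ h3.symm)
      apply SS_congr
      intro ζ hζ
      change (((((M : ℤ) * q ζ) • Finsupp.single (R ζ) (1 : ℤ)) P : ℤ) : ℚ) =
        ((M2 : ℚ) * M) * L (((∏ j, ζ j ^ a j) • Finsupp.single (R ζ) (1 : K)) P)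
      rw [Finsupp.smul_apply, Finsupp.smul_apply, Finsupp.single_apply, Finsupp.single_apply,
        smul_eq_mul, smul_eq_mul]
      by_cases hP : R ζ = P
      · rw [if_pos hP, if_pos hP, mul_one, mul_one]
        push_cast
        rw [hqS ζ hζ]
        ring
      · rw [if_neg hP, if_neg hP, mul_zero, mul_zero, map_zero]
        simp
    exact_mod_cast h0
  have h1 : SS S r (fun ζ => ((M : ℤ) * q ζ) • Finsupp.single (R ζ) (1 : ℤ)) ∈
      Rt K (Ideal.span {susA D f r}) (e + r) := by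
    rw [hcl]
    exact (Rt K (Ideal.span {susA D f r}) (e + r)).zsmul_mem hz _
  have h2 := rel_ren he D hD S hcard hS f p h r τ (fun ζ => (M : ℤ) * q ζ) h1 η η' hη hη'
  have h3 := Dl_map (Int.castAddHom ℚ) r (fun ζ => (M : ℤ) * q ζ) η η'
  rw [h2, map_zero] at h3
  have h4 := Dl_congr (S : Set K) r (fun ζ => (Int.castAddHom ℚ) ((M : ℤ) * q ζ))
    (fun ζ => ((AddMonoidHom.mulLeft ((M2 : ℚ) * M)).comp L.toAddMonoidHom) (∏ j, ζ j ^ a j))
    (by
      intro ζ hζ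
      change (((M : ℤ) * q ζ : ℤ) : ℚ) = ((M2 : ℚ) * M) * L (∏ j, ζ j ^ a j)
      push_cast
      rw [hqS ζ hζ]
      ring) η η' hη hη'
  rw [h3, Dl_map, Dl_prod] at h4
  have h5 : (0 : ℚ) = ((M2 : ℚ) * M) * L (∏ j, (η j ^ a j - η' j ^ a j)) := h4
  rcases mul_eq_zero.1 h5.symm with h6 | h6
  · exfalso
    have : (0 : ℚ) < (M2 : ℚ) * M := by positivity
    exact this.ne' h6
  · exact h6

end Pool.Agent.HCG
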