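import Pool.Agent.HCG.G7

/-!
The number of the independent cones.
-/

namespace Pool.Agent.HCG

open MvPolynomial Pool.Agent.HCH Pool.Agent.HCF

/-- The functions with nonzero values in `ZMod D` on a set with `2 r` elements which can be
divided into `r` pairs of elements with opposite values. -/
def BB (D r : ℕ) : Type := {b : Fin r × Bool → ZMod D // ∃ τ : Equiv.Perm (Fin r × Bool),
  ∀ j, b (τ (j, false)) ≠ 0 ∧ b (τ (j, true)) = - b (τ (j, false))}

/-- The number of these functions. -/
noncomputable def dlt (D r : ℕ) : ℕ := Nat.card (BB D r)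

/-- The character given by `b`. -/
noncomputable def chi (K : Type) [Field K] {D r : ℕ} (b : Fin r × Bool → ZMod D) :
    (Fin r × Bool → rootsOfUnity D K) →* K where
  toFun g := ∏ x, ((g x : Kˣ) : K) ^ (b x).val
  map_one' := by simp
  map_mul' g h := by
    rw [← Finset.prod_mul_distrib]
    refine Finset.prod_congr rfl fun x _ => ?_
    rw [← mul_pow]
    rfl

theorem chi_inj {K : Type} [Field K] {D r : ℕ} (hD : 2 ≤ D) (z : K) (hz : IsPrimitiveRoot z D)
    (b b' : Fin r × Bool → ZMod D) (h : chi K b = chi K b') : b = b' := by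
  classical
  have hne : NeZero D := ⟨by omega⟩
  funext x
  have hzu : IsUnit z := hz.isUnit (by omega)
  obtain ⟨u, hu⟩ := hzu
  have huD : u ^ D = 1 := by
    apply Units.ext
    rw [Units.val_pow_eq_pow_val, hu, hz.pow_eq_one, Units.val_one]
  set w : rootsOfUnity D K := ⟨u, huD⟩ with hw
  have hval : ∀ b : Fin r × Bool → ZMod D, chi K b (Pi.mulSingle x w) = z ^ (b x).val := by
    intro b
    change ∏ y, (((Pi.mulSingle x w : Fin r × Bool → rootsOfUnity D K) y : Kˣ) : K) ^
      (b y).val = _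
    rw [Finset.prod_eq_single x]
    · rw [Pi.mulSingle_eq_same]
      change (u : K) ^ _ = _
      rw [hu]
    · intro y _ hy
      rw [Pi.mulSingle_eq_of_ne hy]
      simp
    · intro hn
      exact absurd (Finset.mem_univ x) hn
  have h1 := congrArg (fun φ : (Fin r × Bool → rootsOfUnity D K) →* K =>
    φ (Pi.mulSingle x w)) h
  beta_reduce at h1
  rw [hval, hval] at h1
  exact ZMod.val_injective D (hz.pow_inj (ZMod.val_lt _) (ZMod.val_lt _) h1)

theorem chi_eq {K : Type} [Field K] {D r : ℕ} (hD : 2 ≤ D) (b : Fin r × Bool → ZMod D)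
    (τ : Equiv.Perm (Fin r × Bool))
    (hb : ∀ j, b (τ (j, false)) ≠ 0 ∧ b (τ (j, true)) = - b (τ (j, false)))
    (g : Fin r × Bool → rootsOfUnity D K) :
    ∏ j, (((g (τ (j, false)) : Kˣ) : K) * (((g (τ (j, true)) : Kˣ) : K))⁻¹) ^
      (b (τ (j, false))).val = chi K b g := by
  have hne : NeZero D := ⟨by omega⟩
  change _ = ∏ x, ((g x : Kˣ) : K) ^ (b x).val
  rw [← Equiv.prod_comp τ (fun x => ((g x : Kˣ) : K) ^ (b x).val), Fintype.prod_prod_type]
  refine Finset.prod_congr rfl fun j _ => ?_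
  rw [Fintype.prod_bool, mul_pow, inv_pow, mul_comm]
  congr 1
  have h1 : (((g (τ (j, true)) : Kˣ) : K)) ^ D = 1 := by
    have h2 : ((g (τ (j, true)) : Kˣ)) ^ D = 1 := (g (τ (j, true))).2
    rw [← Units.val_pow_eq_pow_val, h2, Units.val_one]
  have h0 : (((g (τ (j, true)) : Kˣ) : K)) ≠ 0 := Units.ne_zero _
  rw [(hb j).2]
  rw [ZMod.neg_val, if_neg (hb j).1]
  have h3 : D = (D - (b (τ (j, false))).val) + (b (τ (j, false))).val := by
    have := ZMod.val_lt (b (τ (j, false)))
    omega
  rw [inv_eq_iff_eq_inv, eq_comm, inv_eq_iff_eq_inv]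
  apply eq_inv_of_mul_eq_one_left
  rw [← pow_add, ← h3, h1]

/-- The number of the independent cones over a non-torsion prime. -/
theorem ind_cones {K : Type} [Field K] [IsAlgClosed K] [CharZero K] {m e : ℕ} (he : e + 1 < m)
    (D : ℕ) (hD : 2 ≤ D) (f : MvPolynomial (Fin m) K)
    (p : PrimeSpectrum (MvPolynomial (Fin m) K)) (h : NT K f e p) (r : ℕ) :
    ∃ Q : Fin (dlt D r) → PrimeSpectrum (MvPolynomial (Fin (m + 2 * r)) K),
      (∀ a, IsCone r (Q a).asIdeal) ∧
      Ind K (susA D f r) (e + r) (fun a => Finsupp.single (Q a) (1 : ℤ)) := by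
  classical
  have hne : NeZero D := ⟨by omega⟩
  have hneK : NeZero ((D : ℕ) : K) := ⟨by exact_mod_cast (by omega : D ≠ 0)⟩
  obtain ⟨S, hcard, hS⟩ := exists_roots (K := K) D hD
  have hmS := mem_roots D S hS
  obtain ⟨ζ₀, hζ₀⟩ : S.Nonempty := Finset.card_pos.1 (by omega)
  obtain ⟨ω, hω⟩ : ∃ z : K, IsPrimitiveRoot z D := HasEnoughRootsOfUnity.exists_primitiveRoot K D
  have hζω : ζ₀ * ω ∈ S := by
    rw [hmS] at hζ₀ ⊢
    rw [mul_pow, hζ₀, hω.pow_eq_one, mul_one]
  have hζ₀0 : ζ₀ ≠ 0 := by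
    rintro rfl
    rw [hmS, zero_pow (by omega)] at hζ₀
    exact (neg_ne_zero.2 one_ne_zero) hζ₀.symm
  set N := NN K (susA D f r) (e + r) with hN
  let tb : BB D r → Equiv.Perm (Fin r × Bool) := fun b => b.2.choose
  have htb : ∀ b : BB D r, ∀ j, b.1 (tb b (j, false)) ≠ 0 ∧
    b.1 (tb b (j, true)) = - b.1 (tb b (j, false)) := fun b => b.2.choose_spec
  let v : BB D r → (PrimeSpectrum (MvPolynomial (Fin (m + 2 * r)) K) →₀ K) := fun b =>
    vb S p r (tb b) (fun j => (b.1 (tb b (j, false))).val)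
  have hv0 : ∀ b, N.mkQ (v b) ≠ 0 := by
    intro b hb
    rw [Submodule.mkQ_apply, Submodule.Quotient.mk_eq_zero] at hb
    refine vb_notMem he D hD S hcard hS f p h r (tb b) _ (fun _ => ζ₀ * ω) (fun _ => ζ₀)
      (fun _ => hζω) (fun _ => hζ₀) ?_ hb
    intro j hj
    rw [mul_pow] at hj
    have h1 : ω ^ (b.1 (tb b (j, false))).val = 1 := by
      apply mul_left_cancel₀ (pow_ne_zero (b.1 (tb b (j, false))).val hζ₀0)
      rw [hj, mul_one]
    have h2 := (hω.pow_eq_one_iff_dvd _).1 h1
    have h3 := ZMod.val_lt (b.1 (tb b (j, false)))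
    have h4 := Nat.eq_zero_of_dvd_of_lt h2 h3
    exact (htb b j).1 ((ZMod.val_eq_zero _).1 h4)
  have hvT : ∀ (g : Fin r × Bool → rootsOfUnity D K) (b : BB D r),
      Finsupp.mapDomain (csc (sgv m r fun x => ((g x : Kˣ) : K))) (v b) =
        chi K b.1 g • v b := by
    intro g b
    rw [← chi_eq hD b.1 (tb b) (htb b) g]
    refine vb_csc D S hmS p r (tb b) _ _ (fun x => Units.ne_zero _) (fun x => ?_)
    have h2 : ((g x : Kˣ)) ^ D = 1 := (g x).2
    rw [← Units.val_pow_eq_pow_val, h2, Units.val_one]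
  have hNT : ∀ (g : Fin r × Bool → rootsOfUnity D K) (x), x ∈ N →
      Finsupp.mapDomain (csc (sgv m r fun x => ((g x : Kˣ) : K))) x ∈ N := by
    intro g x hx
    have h1 : ∀ k, sgv m r (fun x => ((g x : Kˣ) : K)) k ≠ 0 :=
      sgv_ne r _ (fun x => Units.ne_zero _)
    refine NN_map _ _ _ (csc_bij _ h1) (fun z hz => Rt_csc _ h1 _ ?_ _ z hz) x hx
    refine scal_susA D f r _ (fun x => ?_)
    have h2 : ((g x : Kˣ)) ^ D = 1 := (g x).2
    rw [← Units.val_pow_eq_pow_val, h2, Units.val_one]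
  have hded : LinearIndependent K (fun b : BB D r =>
      (chi K b.1 : (Fin r × Bool → rootsOfUnity D K) → K)) := by
    have h1 := linearIndependent_monoidHom (Fin r × Bool → rootsOfUnity D K) K
    exact h1.comp (fun b : BB D r => chi K b.1)
      (fun b b' hbb => Subtype.ext (chi_inj hD ω hω _ _ hbb))
  have hli : LinearIndependent K (fun b => N.mkQ (v b)) := by
    rw [linearIndependent_iff']
    intro s c hc b hb
    by_contra hcb
    have h1 : ∃ l : Module.Dual K
        ((PrimeSpectrum (MvPolynomial (Fin (m + 2 * r)) K) →₀ K) ⧸ N), l (N.mkQ (v b)) ≠ 0 := by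
      by_contra hall
      push Not at hall
      exact hv0 b ((Module.forall_dual_apply_eq_zero_iff K _).1 hall)
    obtain ⟨l, hl⟩ := h1
    have h2 : ∑ b ∈ s, (c b * l (N.mkQ (v b))) •
        (chi K b.1 : (Fin r × Bool → rootsOfUnity D K) → K) = 0 := by
      funext g
      rw [Finset.sum_apply, Pi.zero_apply]
      have h3 : ∑ b ∈ s, c b • v b ∈ N := by
        rw [← Submodule.Quotient.mk_eq_zero, ← Submodule.mkQ_apply, map_sum, ← hc]
        exact Finset.sum_congr rfl fun b _ => map_smul _ _ _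
      have h4 := hNT g _ h3
      have h5 : Finsupp.mapDomain (csc (sgv m r fun x => ((g x : Kˣ) : K)))
          (∑ b ∈ s, c b • v b) = ∑ b ∈ s, (c b * chi K b.1 g) • v b := by
        rw [Finsupp.mapDomain_finsetSum]
        refine Finset.sum_congr rfl fun b _ => ?_
        rw [Finsupp.mapDomain_smul, hvT, smul_smul]
      rw [h5, ← Submodule.Quotient.mk_eq_zero, ← Submodule.mkQ_apply] at h4
      have h6 := congrArg l h4
      rw [map_zero, map_sum, map_sum] at h6
      rw [← h6]
      refine Finset.sum_congr rfl fun b _ => ?_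
      rw [map_smul, map_smul, Pi.smul_apply, smul_eq_mul, smul_eq_mul]
      ring
    have h3 := (linearIndependent_iff'.1 hded) s _ h2 b hb
    rcases mul_eq_zero.1 h3 with h4 | h4
    · exact hcb h4
    · exact hl h4
  let X : Type := {Q : PrimeSpectrum (MvPolynomial (Fin (m + 2 * r)) K) //
    IsCone r Q.asIdeal ∧ susA D f r ∈ Q.asIdeal ∧ dm K Q.asIdeal = e + r}
  let w : X → (PrimeSpectrum (MvPolynomial (Fin (m + 2 * r)) K) →₀ K) ⧸ N := fun Q =>
    N.mkQ (Finsupp.single Q.1 (1 : K))
  obtain ⟨κ, a, ha, hspan, hlia⟩ := exists_linearIndependent' K w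
  have hmem : ∀ b, N.mkQ (v b) ∈ Submodule.span K (Set.range (w ∘ a)) := by
    intro b
    rw [hspan]
    refine SS_induction S (fun x => N.mkQ x ∈ Submodule.span K (Set.range w)) ?_ ?_ r _ ?_
    · rw [map_zero]
      exact Submodule.zero_mem _
    · intro x y hx hy
      rw [map_add]
      exact Submodule.add_mem _ hx hy
    · intro ζ hζ
      rw [map_smul]
      refine Submodule.smul_mem _ _ (Submodule.subset_span ?_)
      refine ⟨⟨ren (pim m r (tb b)⁻¹) (Jr p r ζ), isCone_ren _ _ (isCone_Jr p r ζ), ?_, ?_⟩, rfl⟩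
      · rw [mem_ren, pim_susA]
        exact susA_mem_Jr D f p h.1 r ζ (fun j => (hmS _).1 (hζ j))
      · rw [dm_ren]
        exact dm_Jr p e h.2.1 r ζ
  have hcardle : Cardinal.mk (BB D r) ≤ Cardinal.mk κ := by
    have h1 : LinearIndependent K (fun b : BB D r =>
        (⟨N.mkQ (v b), hmem b⟩ : Submodule.span K (Set.range (w ∘ a)))) :=
      LinearIndependent.of_comp (Submodule.span K (Set.range (w ∘ a))).subtype hli
    have h2 := h1.cardinal_le_rank
    rw [rank_span hlia, Cardinal.mk_range_eq _ hlia.injective] at h2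
    exact h2
  have hfin : Finite (BB D r) := by
    unfold BB
    infer_instance
  obtain ⟨ε⟩ := Cardinal.le_def _ _ |>.1 hcardle
  let σ : Fin (dlt D r) ≃ BB D r := (Finite.equivFin (BB D r)).symm
  have hlf : LinearIndependent K (fun i : Fin (dlt D r) => w (a (ε (σ i)))) :=
    hlia.comp (fun i => ε (σ i)) (ε.injective.comp σ.injective)
  refine ⟨fun i => (a (ε (σ i))).1, fun i => (a (ε (σ i))).2.1, ?_, ?_⟩
  · intro i P hP
    rw [Finsupp.single_apply] at hP
    split_ifs at hP with h1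
    · rw [← h1]
      exact (a (ε (σ i))).2.2
    · exact absurd rfl hP
  · intro c hc
    rw [Fintype.linearIndependent_iff] at hlf
    have h1 : ∑ i, (c i : K) • Finsupp.single ((a (ε (σ i))).1) (1 : K) ∈ N := by
      refine NN_int _ _ _ hc _ ?_
      intro P
      rw [Finsupp.finsetSum_apply, Finsupp.finsetSum_apply, Int.cast_sum]
      refine Finset.sum_congr rfl fun i _ => ?_
      rw [Finsupp.smul_apply, Finsupp.smul_apply, Finsupp.single_apply, Finsupp.single_apply,
        smul_eq_mul, smul_eq_mul]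
      split_ifs
      · push_cast
        rfl
      · simp
    have h2 := hlf (fun i => (c i : K)) (by
      rw [← Submodule.Quotient.mk_eq_zero, ← Submodule.mkQ_apply, map_sum] at h1
      rw [← h1]
      exact Finset.sum_congr rfl fun i _ => (map_smul _ _ _).symm)
    intro i
    exact Int.cast_eq_zero.1 (h2 i)

end Pool.Agent.HCG
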