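import Pool.Agent.HCG.G8

/-!
From one failure to many independent cones.
-/

namespace Pool.Agent.HCG

open MvPolynomial Pool.Agent.HCH Pool.Agent.HCF

/-- The subvarieties of codimension `i` of the hypersurface `V(F)` of dimension `n`. -/
abbrev SubC {K : Type} [Field K] {n : ℕ} (F : MvPolynomial (Fin (n + 2)) K) (i : ℕ) : Type :=
  Sub F (n + 1 - i)

/-- The class of a subvariety in the Chow group. -/
noncomputable def scl {K : Type} [Field K] {n : ℕ} (F : MvPolynomial (Fin (n + 2)) K) (i : ℕ)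
    (S : SubC F i) : Chow F (n + 1 - i) :=
  (RatEq F (n + 1 - i)).mkQ (Finsupp.single S 1)

/-- The subvarieties of codimension `i` which are cones with a vertex of dimension at least
`r - 1`. -/
def coneSet {K : Type} [Field K] {n : ℕ} (F : MvPolynomial (Fin (n + 2)) K) (i r : ℕ) :
    Set (SubC F i) :=
  {S | IsCone r S.1.asIdeal}

/-- There are `N` cones of codimension `i` with vertex of dimension at least `r - 1` whose classes
are linearly independent in `A^i(V(F)) / ℚ h^i`. -/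
def IndCones {K : Type} [Field K] {n : ℕ} (F : MvPolynomial (Fin (n + 2)) K) (i r N : ℕ) : Prop :=
  ∃ S : Fin N → SubC F i, (∀ a, S a ∈ coneSet F i r) ∧
    ∀ c : Fin N → ℚ, ∑ a, c a • scl F i (S a) ∈ HSp F i → c = 0

theorem indCones_anti {K : Type} [Field K] {n : ℕ} (F : MvPolynomial (Fin (n + 2)) K)
    (i : ℕ) {r s N M : ℕ} (h : r ≤ s) (hNM : N ≤ M) (hS : IndCones F i s M) :
    IndCones F i r N := by
  classical
  obtain ⟨S, hS, hc⟩ := hS
  refine ⟨fun a => S (Fin.castLE hNM a), fun a => isCone_mono h (hS _), ?_⟩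
  intro c h1
  set c' : Fin M → ℚ := fun k => if hk : (k : ℕ) < N then c ⟨k, hk⟩ else 0 with hc'
  have hcc : ∀ a : Fin N, c' (Fin.castLE hNM a) = c a := by
    intro a
    have ha : ((Fin.castLE hNM a : Fin M) : ℕ) < N := a.2
    simp only [hc']
    rw [dif_pos ha]
    rfl
  have h2 : ∑ a, c a • scl F i (S (Fin.castLE hNM a)) = ∑ k, c' k • scl F i (S k) := by
    symm
    rw [← Finset.sum_subset (Finset.subset_univ (Finset.univ.image (Fin.castLE hNM)))]
    · rw [Finset.sum_image (fun a _ b _ hab => Fin.castLE_injective hNM hab)]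
      refine Finset.sum_congr rfl fun a _ => ?_
      rw [hcc]
    · intro k _ hk
      have hk' : ¬ (k : ℕ) < N := by
        intro h2
        exact hk (Finset.mem_image.2 ⟨⟨k, h2⟩, Finset.mem_univ _, rfl⟩)
      simp only [hc']
      rw [dif_neg hk', zero_smul]
  rw [h2] at h1
  have h3 := hc c' h1
  funext a
  rw [← hcc, h3]
  rfl

/-- Transport of the independent cones. -/
theorem cones_susp {K : Type} [Field K] [IsAlgClosed K] [CharZero K] {m M e : ℕ}
    (he : e + 1 < m) (D : ℕ) (hD : 2 ≤ D) (f : MvPolynomial (Fin m) K)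
    (g : MvPolynomial (Fin M) K) (hg : IsSusp D f g)
    (p : PrimeSpectrum (MvPolynomial (Fin m) K)) (h : NT K f e p) (r : ℕ)
    (hM : M = m + 2 * r) :
    ∃ Q : Fin (dlt D r) → PrimeSpectrum (MvPolynomial (Fin M) K),
      (∀ a, IsCone r (Q a).asIdeal) ∧
      Ind K g (e + r) (fun a => Finsupp.single (Q a) (1 : ℤ)) := by
  classical
  subst hM
  obtain ⟨σ, hσ⟩ := isSusp_perm hg (isSusp_susA D f r)
  obtain ⟨Q, hQ, hI⟩ := ind_cones he D hD f p h r
  refine ⟨fun a => ren σ (Q a), fun a => isCone_ren σ _ (hQ a), ?_, ?_⟩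
  · intro a P hP
    rw [Finsupp.single_apply] at hP
    split_ifs at hP with h1
    · subst h1
      have h2 := hI.1 a (Q a) (by simp)
      refine ⟨?_, ?_⟩
      · rw [mem_ren, hσ]
        exact h2.1
      · rw [dm_ren]
        exact h2.2
    · exact absurd rfl hP
  · intro c hc
    apply hI.2 c
    have h1 := Rt_equiv' (renameEquiv K σ) g (susA D f r) hσ (e + r) _ hc
    rw [Finsupp.mapDomain_finsetSum] at h1
    have h2 : ∀ a, Finsupp.mapDomain (PrimeSpectrum.comap
        ((renameEquiv K σ).symm : MvPolynomial (Fin (m + 2 * r)) K →+*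
          MvPolynomial (Fin (m + 2 * r)) K)) (c a • Finsupp.single (ren σ (Q a)) (1 : ℤ)) =
        c a • Finsupp.single (Q a) (1 : ℤ) := by
      intro a
      have h4 : PrimeSpectrum.comap
        ((renameEquiv K σ).symm : MvPolynomial (Fin (m + 2 * r)) K →+*
          MvPolynomial (Fin (m + 2 * r)) K) (ren σ (Q a)) = Q a := by
        apply PrimeSpectrum.ext
        ext x
        change (renameEquiv K σ) ((renameEquiv K σ).symm x) ∈ (Q a).asIdeal ↔ x ∈ (Q a).asIdeal
        rw [AlgEquiv.apply_symm_apply]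
      have h3 : Finsupp.mapDomain (PrimeSpectrum.comap
        ((renameEquiv K σ).symm : MvPolynomial (Fin (m + 2 * r)) K →+*
          MvPolynomial (Fin (m + 2 * r)) K)) (Finsupp.single (ren σ (Q a)) (c a)) =
          Finsupp.single (Q a) (c a) := by
        rw [Finsupp.mapDomain_single, h4]
      rw [Finsupp.smul_single, Finsupp.smul_single, smul_eq_mul, mul_one]
      exact h3
    rw [Finset.sum_congr rfl fun a _ => h2 a] at h1
    exact h1

/-- Independent affine cycles are independent in the projective Chow group modulo `h^i`. -/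
theorem ind_lig {K : Type} [Field K] {n d : ℕ} (F : MvPolynomial (Fin (n + 2)) K)
    (hF : F.IsHomogeneous d) (i e : ℕ)
    (hi : 1 ≤ i) (hin : e + i = n) {ι : Type} [Fintype ι]
    (Z : ι → (PrimeSpectrum (MvPolynomial (Fin (n + 1)) K) →₀ ℤ))
    (h : Ind K (deh F) e Z) :
    LinearIndependent ℚ (fun a : ι =>
      (HSg F i (e + 1)).mkQ ((RatEq F (e + 1)).mkQ (clo F e (Z a)))) := by
  have hli : LinearIndependent ℤ (fun a : ι =>
      (HSg F i (e + 1)).mkQ ((RatEq F (e + 1)).mkQ (clo F e (Z a)))) := by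
    rw [Fintype.linearIndependent_iff]
    intro c hc
    have h1 : (HSg F i (e + 1)).mkQ ((RatEq F (e + 1)).mkQ (clo F e (∑ a, c a • Z a))) = 0 := by
      rw [clo_sum, map_sum, map_sum, ← hc]
      apply Finset.sum_congr rfl
      intro a _
      rw [map_zsmul, map_zsmul]
    have h2 : (RatEq F (e + 1)).mkQ (clo F e (∑ a, c a • Z a)) ∈ HSg F i (e + 1) := by
      rw [← Submodule.ker_mkQ (HSg F i (e + 1)), LinearMap.mem_ker, h1]
    have h3 := HSg_Tp F hF i e hi hin _ h2
    obtain ⟨N, hN, h4⟩ := clo_Tp F hF e (∑ a, c a • Z a) (by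
      intro p hp
      rw [Finsupp.finsetSum_apply] at hp
      obtain ⟨a, _, ha⟩ := Finset.exists_ne_zero_of_sum_ne_zero hp
      apply h.1 a p
      intro h0
      apply ha
      rw [Finsupp.smul_apply, h0, smul_zero]) h3
    have h5 : ∑ a, ((N : ℤ) * c a) • Z a ∈ Rt K (Ideal.span {deh F}) e := by
      have h6 : ∑ a, ((N : ℤ) * c a) • Z a = (N : ℤ) • ∑ a, c a • Z a := by
        rw [Finset.smul_sum]
        apply Finset.sum_congr rfl
        intro a _
        rw [smul_smul]
      rw [h6]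
      exact h4
    intro a
    have h7 := h.2 _ h5 a
    have hN' : (N : ℤ) ≠ 0 := by exact_mod_cast hN.ne'
    rcases mul_eq_zero.1 h7 with h8 | h8
    · exact absurd h8 hN'
    · exact h8
  exact (LinearIndependent.iff_fractionRing ℤ ℚ).1 hli

theorem ind_conesg {K : Type} [Field K] [Infinite K] {n d N : ℕ}
    (F : MvPolynomial (Fin (n + 2)) K) (hF : F.IsHomogeneous d) (i e r : ℕ)
    (hi : 1 ≤ i) (hin : e + i = n)
    (Q : Fin N → PrimeSpectrum (MvPolynomial (Fin (n + 1)) K))
    (hQ : ∀ a, IsCone r (Q a).asIdeal)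
    (h : Ind K (deh F) e (fun a => Finsupp.single (Q a) (1 : ℤ))) :
    ∃ S : Fin N → Sub F (e + 1), (∀ a, IsCone r (S a).1.asIdeal) ∧
      ∀ c : Fin N → ℚ, ∑ a, c a • (RatEq F (e + 1)).mkQ (Finsupp.single (S a) 1) ∈
        HSg F i (e + 1) → c = 0 := by
  classical
  have h1 := ind_lig F hF i e hi hin _ h
  have h2 : ∀ a, deh F ∈ (Q a).asIdeal ∧ dm K (Q a).asIdeal = e := fun a =>
    h.1 a (Q a) (by simp)
  have h3 : ∀ a, clo F e (Finsupp.single (Q a) (1 : ℤ)) = Finsupp.single
      (⟨hm (Q a), hm_homog _, (mem_hm _ F d hF).2 (h2 a).1, by rw [dm_hm, (h2 a).2]⟩ :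
        Sub F (e + 1)) (1 : ℚ) := by
    intro a
    ext P
    rw [clo_apply, Finsupp.mapDomain_single, Finsupp.single_apply, Finsupp.single_apply]
    by_cases hP : hm (Q a) = P.1
    · rw [if_pos hP, if_pos (Subtype.ext hP)]
      simp
    · rw [if_neg hP, if_neg (fun hc => hP (congrArg Subtype.val hc))]
      simp
  refine ⟨fun a => ⟨hm (Q a), hm_homog _, (mem_hm _ F d hF).2 (h2 a).1,
    by rw [dm_hm, (h2 a).2]⟩, fun a => isCone_hm _ (hQ a), ?_⟩
  intro c hc
  rw [Fintype.linearIndependent_iff] at h1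
  funext a
  refine h1 c ?_ a
  have h4 : (HSg F i (e + 1)).mkQ (∑ a, c a • (RatEq F (e + 1)).mkQ
      (clo F e (Finsupp.single (Q a) (1 : ℤ)))) = 0 := by
    rw [Submodule.mkQ_apply, Submodule.Quotient.mk_eq_zero]
    simp only [h3]
    exact hc
  rw [map_sum] at h4
  rw [← h4]
  exact Finset.sum_congr rfl fun a _ => (map_smul _ _ _).symm

theorem ind_crk {K : Type} [Field K] [Infinite K] {n d N : ℕ}
    (F : MvPolynomial (Fin (n + 2)) K) (hF : F.IsHomogeneous d) (i r : ℕ)
    (hi : 1 ≤ i) (hin : i ≤ n)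
    (Q : Fin N → PrimeSpectrum (MvPolynomial (Fin (n + 1)) K))
    (hQ : ∀ a, IsCone r (Q a).asIdeal)
    (h : Ind K (deh F) (n - i) (fun a => Finsupp.single (Q a) (1 : ℤ))) :
    IndCones F i r N := by
  change ∃ S : Fin N → Sub F (n + 1 - i), (∀ a, IsCone r (S a).1.asIdeal) ∧
      ∀ c : Fin N → ℚ, ∑ a, c a • (RatEq F (n + 1 - i)).mkQ (Finsupp.single (S a) 1) ∈
        HSg F i (n + 1 - i) → c = 0
  have e1 : n + 1 - i = (n - i) + 1 := by omega
  rw [e1]
  exact ind_conesg F hF i (n - i) r hi (by omega) Q hQ h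

theorem dlt_succ (D r : ℕ) (hD : 2 ≤ D) : dlt D r ≤ dlt D (r + 1) := by
  classical
  have hne : NeZero D := ⟨by omega⟩
  have hfin : Finite (BB D (r + 1)) := by
    unfold BB
    infer_instance
  have h1 : Fact (1 < D) := ⟨by omega⟩
  let ι : Fin r × Bool ↪ Fin (r + 1) × Bool :=
    ⟨fun x => (x.1.succ, x.2), fun x y h => by
      rw [Prod.mk.injEq] at h
      exact Prod.ext (Fin.succ_injective _ h.1) h.2⟩
  let ex : (Fin r × Bool → ZMod D) → (Fin (r + 1) × Bool → ZMod D) := fun b x =>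
    Fin.cases (motive := fun _ => ZMod D) (if x.2 then -1 else 1) (fun j => b (j, x.2)) x.1
  have hex : ∀ (b : Fin r × Bool → ZMod D) (j : Fin r) (y : Bool), ex b (j.succ, y) = b (j, y) :=
    fun _ _ _ => rfl
  refine Nat.card_le_card_of_injective (fun b : BB D r => (⟨ex b.1, ?_⟩ : BB D (r + 1))) ?_
  · obtain ⟨τ, hτ⟩ := b.2
    refine ⟨τ.viaFintypeEmbedding ι, ?_⟩
    intro j
    refine Fin.cases ?_ (fun j => ?_) j
    · have h2 : ∀ y, τ.viaFintypeEmbedding ι (0, y) = (0, y) := by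
        intro y
        apply Equiv.Perm.viaFintypeEmbedding_apply_notMem_range
        rintro ⟨x, hx⟩
        exact Fin.succ_ne_zero _ (congrArg Prod.fst hx)
      rw [h2, h2]
      refine ⟨?_, rfl⟩
      change (1 : ZMod D) ≠ 0
      exact one_ne_zero
    · have h2 : ∀ y, τ.viaFintypeEmbedding ι (j.succ, y) = ι (τ (j, y)) := fun y =>
        Equiv.Perm.viaFintypeEmbedding_apply_image τ ι (j, y)
      rw [h2, h2]
      exact hτ j
  · intro b b' h
    apply Subtype.ext
    funext x
    exact congrFun (congrArg Subtype.val h) (x.1.succ, x.2)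

theorem dlt_mono (D : ℕ) (hD : 2 ≤ D) {r s : ℕ} (h : r ≤ s) : dlt D r ≤ dlt D s :=
  monotone_nat_of_le_succ (fun r => dlt_succ D r hD) h

/-- The number of the functions is at least `(D - 1) ^ r`. -/
theorem pow_le_dlt (D r : ℕ) (hD : 2 ≤ D) : (D - 1) ^ r ≤ dlt D r := by
  classical
  have hne : NeZero D := ⟨by omega⟩
  have hfin : Finite (BB D r) := by
    unfold BB
    infer_instance
  have h1 : Nat.card (Fin r → {a : ZMod D // a ≠ 0}) = (D - 1) ^ r := by
    rw [Nat.card_fun]
    congr 1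
    · rw [Nat.card_eq_fintype_card, Fintype.card_subtype_compl, ZMod.card]
      simp
    · simp
  rw [← h1]
  refine Nat.card_le_card_of_injective (fun a : Fin r → {a : ZMod D // a ≠ 0} =>
    (⟨fun x => if x.2 then - (a x.1).1 else (a x.1).1, ?_⟩ : BB D r)) ?_
  · refine ⟨1, fun j => ⟨?_, ?_⟩⟩
    · exact (a j).2
    · rfl
  · intro a b h
    funext j
    apply Subtype.ext
    exact congrFun (congrArg Subtype.val h) (j, false)

/-- One failure in the critical dimension gives many independent cones. -/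
theorem growthc {d j : ℕ} (hd : 2 ≤ d) (hj : 1 ≤ j) (F : MvPolynomial (Fin (2 * j + 1 + 2)) ℂ)
    (hF : F.IsHomogeneous d) (hs : Smooth F)
    (hlow : ∀ A : Matrix (Fin (2 * j + 1 + 2)) (Fin (2 * j + 1 + 2)) ℂ, A.det ≠ 0 →
      Hart (rhoI (lin A F)) (j - 1)) (hn : ¬ Hart F j) (k r : ℕ) (hk : 1 ≤ k) :
    ∃ V : MvPolynomial (Fin (2 * (j + r) + 1 + 2)) ℂ, V.IsHomogeneous (d * k) ∧ Smooth V ∧
      IndCones V (j + r) r (dlt (d * k) r) := by
  have hD : 2 ≤ d * k := by nlinarith
  obtain ⟨A, hA, hT⟩ := good_lin F hF (by omega) hs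
  have hG : Smooth (expand k (lin A F)) := smooth_expand hk (lin A F) hT
  have hGh : (expand k (lin A F)).IsHomogeneous (d * k) := by
    rw [mul_comm d k]
    exact expand_homog _ (lin_homog A F hF)
  have hAT : ¬ AT ℂ (deh (expand k (lin A F))) (j + 1) := by
    intro h3
    apply hn
    have h4 := AT_cover hk (lin A F) (j + 1) h3
    have hs' := sg_of_smooth (lin A F) (smooth_lin A hA F hs)
    obtain ⟨hp, hdm⟩ := prime_of_sg (lin A F) (lin_homog A F hF) (by omega) 0 hs' (by omega)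
    apply hart_lin A hA F j
    apply hart_of_affine (lin A F) (lin_homog A F hF) hp hdm j hj (by omega) (hlow A hA)
    have e2 : 2 * j + 1 - j = j + 1 := by omega
    rw [e2]
    exact h4
  rw [AT_iff] at hAT
  push Not at hAT
  obtain ⟨p, hpf, hpd, hpN⟩ := hAT
  have hNT : NT ℂ (deh (expand k (lin A F))) (j + 1) p := ⟨hpf, hpd, hpN⟩
  obtain ⟨V0, hV0⟩ := exists_susp (M := 2 * (j + r) + 1 + 2) (d * k) r (by omega)
    (expand k (lin A F))
  obtain ⟨σ, hσ⟩ := susp_deh _ V0 hV0
  have hVh : (rename σ V0).IsHomogeneous (d * k) := (susp_homog _ V0 hV0 hGh).rename_isHomogeneous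
  have hVs : Smooth (rename σ V0) := smooth_susp hD _ _ (isSusp_ren _ V0 hV0 σ) hG
  obtain ⟨Q, hQ, hI⟩ := cones_susp (by omega) (d * k) hD _ _ hσ p hNT r (by omega)
  have e1 : 2 * (j + r) + 1 - (j + r) = j + 1 + r := by omega
  rw [← e1] at hI
  exact ⟨rename σ V0, hVh, hVs,
    ind_crk (rename σ V0) hVh (j + r) r (by omega) (by omega) Q hQ hI⟩

end Pool.Agent.HCG
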