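import Pool.Agent.HCG.G12

/-!
The four statements of the theorem on cones.
-/

namespace Pool.Agent.HCG

open MvPolynomial Pool.Agent.HCH Pool.Agent.HCF

/-- Hartshorne's conjecture in degree `d` and codimension at most `i`, for all hypersurfaces with
sufficiently small singular locus. -/
def HCle (d i : ℕ) : Prop :=
  ∀ j ≤ i, ∀ n s, 2 * j + s + 1 ≤ n → ∀ F : MvPolynomial (Fin (n + 2)) ℂ,
    F.IsHomogeneous d → SgLe F s → ChowTriv F j

/-- The classes of all cones with vertex of large dimension are multiples of `h^c`. -/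
def ConesAll (d i : ℕ) : Prop :=
  ∀ c n s t, c + s ≤ i + t → 2 * c + s + 1 ≤ n → ∀ F : MvPolynomial (Fin (n + 2)) ℂ,
    F.IsHomogeneous d → SgLe F s → ∀ S ∈ coneSet F c t, scl F c S ∈ HSp F c

/-- The same for the cones of codimension `i + r` with vertex of dimension at least `r - 1` in
smooth hypersurfaces of dimension `2 (i + r) + 1`. -/
def ConesCrit (d i r : ℕ) : Prop :=
  ∀ V : MvPolynomial (Fin (2 * (i + r) + 1 + 2)) ℂ, V.IsHomogeneous d → Smooth V →
    ∀ S ∈ coneSet V (i + r) r, scl V (i + r) S ∈ HSp V (i + r)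

/-- These cones give fewer than `dlt D r` independent classes on the smooth hypersurfaces of some
degree `D = d k`. -/
def ConesFew (d i r : ℕ) : Prop :=
  ∃ k, 1 ≤ k ∧ ∀ V : MvPolynomial (Fin (2 * (i + r) + 1 + 2)) ℂ, V.IsHomogeneous (d * k) →
    Smooth V → ¬ IndCones V (i + r) r (dlt (d * k) r)

end Pool.Agent.HCG
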